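import Pool.Agent.P.MP_26a8c3_nt.U.St

/-! The bilinear bound over two blocks of primes. -/

namespace Pool.Agent.P.MP_26a8c3_nt.U

open Finset Pool.Agent.P.MP_26a8c3_nt.Hyb

lemma Bil_card {K : ℕ} {S : Finset ℕ} {N : ℝ} (h : (S.card : ℝ) ≤ N) :
    ((tup K S).card : ℝ) ≤ N ^ K := by
  rw [Fintype.card_piFinset, Finset.prod_const, Finset.card_univ, Fintype.card_fin]
  push_cast
  exact pow_le_pow_left₀ (Nat.cast_nonneg _) h _

lemma Bil_J1 {B P s t Q H J : ℝ} {K : ℕ} (hK : 1 ≤ K) (hKB : 20 * (K : ℝ) ≤ B) (hP : 0 < P)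
    (hs : 0 < s) (ht : 0 < t) (hQ : 0 < Q) (hH0 : 0 ≤ H) (hH : H ≤ 2 * B ^ 15)
    (h1 : s * t ^ 4 ≤ P ^ K) (h2 : (P * B) ^ (K - 1) * t ^ 4 ≤ s) (h3 : s ^ 2 ≤ B ^ 5 * Q)
    (hJ : J ≤ (1 + 4 * K * H * (P * B) ^ (2 * K) / (P * Q)) * ((P * B) ^ K * (K : ℝ) ^ K)) :
    s * t ^ 4 * J ≤ B ^ (K + 22) * (P * B) ^ (2 * K) := by
  have hK' : (1 : ℝ) ≤ K := by exact_mod_cast hK
  have hB1 : 1 ≤ B := by linarith
  have hB0 : 0 < B := by linarith
  have hKK : (K : ℝ) ^ K ≤ B ^ K := pow_le_pow_left₀ (by positivity) (by linarith) _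
  have hPP : P ^ K ≤ (P * B) ^ K := pow_le_pow_left₀ hP.le (le_mul_of_one_le_right hP.le hB1) _
  have e1 : (P * B) ^ K = (P * B) ^ (K - 1) * (P * B) := by
    rw [← pow_succ]; congr 1; omega
  have e2 : (P * B) ^ (2 * K) = (P * B) ^ K * (P * B) ^ K := by rw [two_mul, pow_add]
  have a1 : s * t ^ 4 * (P * B) ^ K ≤ (P * B) ^ (2 * K) := by
    rw [e2]
    exact mul_le_mul_of_nonneg_right (h1.trans hPP) (by positivity)
  have a2 : s * t ^ 4 * (P * B) ^ K / (P * Q) ≤ B ^ 6 := by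
    rw [div_le_iff₀ (by positivity), e1]
    calc s * t ^ 4 * ((P * B) ^ (K - 1) * (P * B)) = s * ((P * B) ^ (K - 1) * t ^ 4) * (P * B) := by
          ring
      _ ≤ s * s * (P * B) := by gcongr
      _ = s ^ 2 * (P * B) := by ring
      _ ≤ B ^ 5 * Q * (P * B) := by gcongr
      _ = _ := by ring
  have a3 : (2 : ℝ) ≤ B ^ 22 := le_trans (by linarith) (le_self_pow₀ hB1 (by norm_num))
  generalize (P * B) ^ (2 * K) = V at a1 hJ e2 ⊢
  have hV : 0 ≤ V := by rw [e2]; positivity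
  have a4 : 4 * K * H * B ^ 6 ≤ B ^ 22 / 2 := by
    calc 4 * K * H * B ^ 6 ≤ 4 * K * (2 * B ^ 15) * B ^ 6 := by gcongr
      _ = 8 * K * B ^ 21 := by ring
      _ ≤ B / 2 * B ^ 21 := by gcongr; linarith
      _ = _ := by ring
  calc s * t ^ 4 * J ≤ s * t ^ 4 * ((1 + 4 * K * H * V / (P * Q)) * ((P * B) ^ K * (K : ℝ) ^ K)) := by
        gcongr
    _ = (s * t ^ 4 * (P * B) ^ K + 4 * K * H * (s * t ^ 4 * (P * B) ^ K / (P * Q)) * V) *
          (K : ℝ) ^ K := by ring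
    _ ≤ (V + 4 * K * H * B ^ 6 * V) * B ^ K := by gcongr
    _ ≤ (B ^ 22 / 2 * V + B ^ 22 / 2 * V) * B ^ K := by
        gcongr
        exact le_mul_of_one_le_left hV (by linarith)
    _ = _ := by ring

lemma Bil_J2 {B M s Q : ℝ} {L : ℕ} (hLB : 20 * (L : ℝ) ≤ B) (hB1 : 1 ≤ B) (hM : 0 < M)
    (hs : 0 < s) (h1 : M ^ (L - 1) ≤ s) (h2 : s ≤ M ^ L) (h3 : Q ≤ B ^ 27 * s ^ 2) (hL : 1 ≤ L) :
    (Q + 4 * L * B * ((M * B) ^ (L - 1) * (M * B) ^ L)) * ((M * B) ^ L * (L : ℝ) ^ L) ≤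
      2 * B ^ (2 * L + 27) * s * (M * B) ^ (2 * L) := by
  have hB0 : 0 < B := by linarith
  have hL0 : (0 : ℝ) ≤ L := Nat.cast_nonneg L
  have hLL : (L : ℝ) ^ L ≤ B ^ L := pow_le_pow_left₀ hL0 (by linarith) _
  have hMM : M ^ L ≤ (M * B) ^ L := pow_le_pow_left₀ hM.le (le_mul_of_one_le_right hM.le hB1) _
  have a1 : Q ≤ B ^ (L + 27) * (s * (M * B) ^ L) := by
    refine h3.trans ?_
    rw [sq]
    gcongr
    · omega
    · exact h2.trans hMM
  have a2 : 4 * L * B * ((M * B) ^ (L - 1) * (M * B) ^ L) ≤ B ^ (L + 27) * (s * (M * B) ^ L) := by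
    rw [mul_pow M B (L - 1)]
    calc 4 * L * B * (M ^ (L - 1) * B ^ (L - 1) * (M * B) ^ L)
        ≤ B * B * (s * B ^ (L + 25) * (M * B) ^ L) := by
          gcongr
          · linarith
          · omega
      _ = _ := by ring
  calc _ ≤ (B ^ (L + 27) * (s * (M * B) ^ L) + B ^ (L + 27) * (s * (M * B) ^ L)) *
        ((M * B) ^ L * B ^ L) := by gcongr
    _ = _ := by ring

theorem pBil (h : T_En) : T_Bil := by
  intro k _ c X s t B P M H K L PP MM α β hK hL hα hβ hPP hMM hc hH1 hH2 hB hBP hBM ht hs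
    hs1 hs2 hs3 hs4 hQ1 hQ2 hQ3
  have hk : 0 < k := Nat.pos_of_ne_zero (NeZero.ne k)
  have hk' : (0 : ℝ) < k := by exact_mod_cast hk
  have hK' : (1 : ℝ) ≤ K := by exact_mod_cast hK
  have hL' : (1 : ℝ) ≤ L := by exact_mod_cast hL
  have hKl : (1 : ℝ) ≤ K * L := one_le_mul_of_one_le_of_one_le hK' hL'
  have hKB : 20 * (K : ℝ) ≤ B := by nlinarith
  have hLB : 20 * (L : ℝ) ≤ B := by nlinarith
  have hB20 : 20 ≤ B := by linarith
  have hB1 : 1 ≤ B := by linarith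
  have hB0 : 0 < B := by linarith
  have hKL : 1 ≤ K * L := Nat.mul_pos hK hL
  have htB : B ≤ t := le_trans (le_self_pow₀ hB1 (by omega)) ht
  have ht0 : 0 < t := by linarith
  have hP0 : 0 < P := by linarith
  have hM0 : 0 < M := by linarith
  have hP'1 : 1 ≤ P * B := one_le_mul_of_one_le_of_one_le (by linarith) hB1
  have hM'1 : 1 ≤ M * B := one_le_mul_of_one_le_of_one_le (by linarith) hB1
  have hPP' : ∀ p ∈ PP, p.Prime ∧ K < p ∧ (p : ℝ) ≤ P * B ∧ Nat.Coprime p k := fun p hp =>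
    ⟨(hPP p hp).1, by
      have : (K : ℝ) < p := by linarith [(hPP p hp).2.1]
      exact_mod_cast this, (hPP p hp).2.2⟩
  have hMM' : ∀ p ∈ MM, p.Prime ∧ L < p ∧ (p : ℝ) ≤ M * B ∧ Nat.Coprime p k := fun p hp =>
    ⟨(hMM p hp).1, by
      have : (L : ℝ) < p := by linarith [(hMM p hp).2.1]
      exact_mod_cast this, (hMM p hp).2.2⟩
  have hcP := card_le_of_le PP (N := P * B) (by positivity) fun p hp =>
    ⟨(hPP p hp).1.ne_zero, (hPP p hp).2.2.1⟩
  have hcM := card_le_of_le MM (N := M * B) (by positivity) fun p hp =>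
    ⟨(hMM p hp).1.ne_zero, (hMM p hp).2.2.1⟩
  set S : ℝ := K / P with hS
  set T : ℝ := L / M with hT
  have hS0 : 0 < S := by positivity
  have hT0 : 0 < T := by positivity
  set Ξ := |X| * S * T with hΞ
  have hΞ0 : 0 ≤ Ξ := by positivity
  set Q := k * (1 + Ξ) with hQ
  have hQ0 : 0 < Q := by positivity
  have eΞ : k * Ξ = K * L * (k * |X| / (P * M)) := by
    rw [hΞ, hS, hT]; field_simp
  have hx0 : 0 ≤ k * |X| / (P * M) := by positivity
  have hQl : s ^ 2 ≤ B ^ 5 * Q := by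
    refine hQ1.trans (mul_le_mul_of_nonneg_left ?_ (by positivity))
    rw [hQ, mul_add (k : ℝ), mul_one, eΞ]
    linarith [le_mul_of_one_le_left hx0 hKl]
  have hQu : Q ≤ B ^ 27 * s ^ 2 := by
    rw [hQ, mul_add, mul_one, eΞ]
    have h1 : K * L * (k * |X| / (P * M)) ≤ B / 20 * (4 * B ^ 26 * s ^ 2) := by
      gcongr
      linarith
    have h2 : (20 : ℝ) ≤ B ^ 27 := hB20.trans (le_self_pow₀ hB1 (by norm_num))
    have h3 : 20 * s ^ 2 ≤ B ^ 27 * s ^ 2 := by gcongr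
    have h4 : B / 20 * (4 * B ^ 26 * s ^ 2) = B ^ 27 * s ^ 2 / 5 := by ring
    have h5 : 0 ≤ s ^ 2 := by positivity
    linarith only [h1, h3, h4, h5, hQ2]
  have hJs : s * t ^ 4 * pairs (tup K PP) (fun i i' => c * zs k i = c * zs k i' ∧
      |rs i - rs i'| ≤ 2 * S / (1 + Ξ)) ≤ B ^ (K + 22) * (P * B) ^ (2 * K) := by
    refine Bil_J1 hK hKB hP0 hs ht0 hQ0 (by linarith) hH2 hs1 hs2 hQl ?_
    refine (h k hk K PP c H (P * B) _ (by linarith) (by positivity) hc hPP' hP'1).trans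
      (le_of_eq ?_)
    rw [hS, hQ]; field_simp; ring
  have hJt : Q * pairs (tup L MM) (fun j j' => zs k j = zs k j' ∧
      |rs j - rs j'| ≤ 2 * T / (1 + Ξ)) ≤ 2 * B ^ (2 * L + 27) * s * (M * B) ^ (2 * L) := by
    have h0 := h k hk L MM 1 1 (M * B) (2 * T / (1 + Ξ)) one_pos
      (by positivity) (fun Δ h1 h2 => by
        rw [one_mul] at h2 ⊢
        have := Int.le_of_dvd (abs_pos.2 h1)
          ((dvd_abs _ _).2 ((ZMod.intCast_zmod_eq_zero_iff_dvd _ _).1 h2))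
        exact_mod_cast this) hMM' hM'1
    simp only [one_mul] at h0
    refine (mul_le_mul_of_nonneg_left h0 hQ0.le).trans
      (le_trans (le_of_eq ?_) (Bil_J2 hLB hB1 hM0 hs hs3 hs4 hQu hL))
    have : (M * B) ^ (2 * L) = M * B * ((M * B) ^ (L - 1) * (M * B) ^ L) := by
      rw [← pow_add, ← pow_succ']; congr 1; omega
    rw [this, hT, hQ]; field_simp; ring
  have hmain := bil_pow k c X PP MM α β hα hβ hK hL hcP hcM
    (W := B ^ (K + L + 26) / t * ((P * B) ^ K * (M * B) ^ L)) (fun a b ha hb => by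
      have h1 := dls k (tup K PP) (tup L MM) a b ha hb (fun i => c * zs k i) (zs k) rs rs
        (X := X) (ρ := t⁻¹) hS0 hT0
        (fun i hi => rs_bounds hP0 fun t => (hPP _ (Fintype.mem_piFinset.1 hi t)).2.1)
        (fun j hj => rs_bounds hM0 fun t => (hMM _ (Fintype.mem_piFinset.1 hj t)).2.1)
        (by positivity) (by rw [inv_eq_one_div]; gcongr; linarith)
      refine h1.trans ?_
      have c1 := Bil_card (K := K) hcP
      have c2 := Bil_card (K := L) hcM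
      have c3 : 20 * t⁻¹ * ((tup K PP).card : ℝ) * ((tup L MM).card : ℝ) ≤
          B ^ (K + L + 25) / t * ((P * B) ^ K * (M * B) ^ L) := by
        have : 20 ≤ B ^ (K + L + 25) := hB20.trans (le_self_pow₀ hB1 (by omega))
        rw [div_eq_mul_inv, ← mul_assoc]
        gcongr
      have c4 : B ^ (K + L + 25) / t * ((P * B) ^ K * (M * B) ^ L) +
          B ^ (K + L + 25) / t * ((P * B) ^ K * (M * B) ^ L)
          ≤ B ^ (K + L + 26) / t * ((P * B) ^ K * (M * B) ^ L) := by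
        have : (0 : ℝ) ≤ B ^ (K + L + 25) / t * ((P * B) ^ K * (M * B) ^ L) := by positivity
        calc _ = 2 * (B ^ (K + L + 25) / t * ((P * B) ^ K * (M * B) ^ L)) := by ring
          _ ≤ B * (B ^ (K + L + 25) / t * ((P * B) ^ K * (M * B) ^ L)) := by gcongr; linarith
          _ = _ := by ring
      refine le_trans (add_le_add c3 ?_) c4
      refine Real.sqrt_le_iff.2 ⟨by positivity, ?_⟩
      rw [← hΞ, ← hQ]
      set J1 := pairs (tup K PP) (fun i i' => c * zs k i = c * zs k i' ∧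
        |rs i - rs i'| ≤ 2 * S / (1 + Ξ))
      set J2 := pairs (tup L MM) (fun j j' => zs k j = zs k j' ∧
        |rs j - rs j'| ≤ 2 * T / (1 + Ξ))
      have hJ1 : 0 ≤ J1 := pairs_nonneg _ _
      have c5 : 4 ≤ B ^ (K + 1) := le_trans (by linarith) (le_self_pow₀ hB1 (by omega))
      generalize P * B = P' at hJs hP'1 ⊢
      generalize M * B = M' at hJt hM'1 ⊢
      calc 2 * Q / t⁻¹ ^ 2 * J1 * J2 = 2 * t ^ 2 * J1 * (Q * J2) := by field_simp
        _ ≤ 2 * t ^ 2 * J1 * (2 * B ^ (2 * L + 27) * s * M' ^ (2 * L)) := by gcongr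
        _ = 4 * (s * t ^ 4 * J1) * (B ^ (2 * L + 27) * M' ^ (2 * L) / t ^ 2) := by
            field_simp; ring
        _ ≤ B ^ (K + 1) * (B ^ (K + 22) * P' ^ (2 * K)) *
            (B ^ (2 * L + 27) * M' ^ (2 * L) / t ^ 2) := by gcongr
        _ = _ := by field_simp; ring)
  refine le_of_pow_le_pow_left₀ (n := K * L) (by omega) (by positivity) (hmain.trans ?_)
  have e : (M * B) ^ ((K - 1) * L) * (((P * B) ^ K) ^ (L - 1) *
      (B ^ (K + L + 26) / t * ((P * B) ^ K * (M * B) ^ L))) =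
      (P * B * (M * B)) ^ (K * L) * (B ^ (K + L + 26) / t) := by
    generalize P * B = P'
    generalize M * B = M'
    generalize B ^ (K + L + 26) / t = W
    obtain ⟨K', hK'⟩ : ∃ K', K = K' + 1 := ⟨K - 1, by omega⟩
    obtain ⟨l', hl'⟩ : ∃ l', L = l' + 1 := ⟨L - 1, by omega⟩
    rw [hl', hK', Nat.add_sub_cancel, Nat.add_sub_cancel]; ring
  rw [e, div_pow, div_eq_mul_inv ((P * B * (M * B)) ^ (K * L))]
  refine mul_le_mul_of_nonneg_left ?_ (by positivity)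
  rw [← one_div, div_le_div_iff₀ ht0 (by positivity), one_mul, ← pow_mul, ← pow_add]
  refine (pow_le_pow_right₀ hB1 ?_).trans ht
  have a1 : K ≤ K * L := Nat.le_mul_of_pos_right _ hL
  have a2 : L ≤ K * L := Nat.le_mul_of_pos_left _ hK
  omega

end Pool.Agent.P.MP_26a8c3_nt.U
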