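import Pool.Agent.P.MP_26a8c3_nt.U.St

/-! The middle range: choice of the parameters. -/

namespace Pool.Agent.P.MP_26a8c3_nt.U

open Finset Pool.Agent.P.MP_26a8c3_nt.Hyb

lemma core_symm (R : ℕ → ℝ) (A B : Finset (Finset ℕ)) : RR R A B = RR R B A := by
  unfold RR rho
  rw [Finset.sum_comm]
  refine Finset.sum_congr rfl fun S _ => Finset.sum_congr rfl fun S' _ => ?_
  rw [Finset.sum_comm, mul_comm (gg S')]
  refine congrArg _ (Finset.sum_congr rfl fun U _ => Finset.sum_congr rfl fun U' _ => ?_)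
  rw [Finset.union_comm]; ring

lemma core_split (R : ℕ → ℝ) (A E : Finset (Finset ℕ)) :
    RR R (A ∪ E) (A ∪ E) = RR R (A \ E) (A \ E) + RR R E (A \ E) + RR R E (A ∪ E) := by
  have h : ∀ D, RR R (A ∪ E) D = RR R (A \ E) D + RR R E D := fun D => by
    unfold RR
    rw [← Finset.sdiff_union_self_eq_union, Finset.sum_union Finset.sdiff_disjoint]
  rw [h, core_symm R (A \ E), h]

lemma core_num {L μ J I G φ k T e : ℝ} (hL : 0 < L) (h1 : 1 ≤ μ) (h2 : 2 * μ ≤ L) (hJ : 4 * L ≤ J)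
    (hI : I ≤ 1 + 2 / J) (hφ : 0 < φ) (hk : φ ≤ k) (hT : 0 < T) (hG : φ / k * (L / 2 + μ) ≤ G)
    (he : e < T / (2 * L ^ 2)) :
    I * T / G + e < (2 - μ / (2 * L)) * (k * T) / (φ * L) := by
  have hk0 : 0 < k := hφ.trans_le hk
  have hμ : 0 < μ := by linarith
  have a1 : 2 / J ≤ μ / (2 * L) := by
    rw [div_le_div_iff₀ (by linarith) (by positivity)]; nlinarith
  have a2 : (1 + μ / (2 * L)) / (L / 2 + μ) ≤ (2 - μ / L) / L := by
    obtain ⟨w, hw⟩ : ∃ w, μ = w * L := ⟨μ / L, by field_simp⟩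
    have w0 : 0 < w := by
      by_contra h
      nlinarith [not_lt.1 h]
    have w1 : 2 * w ≤ 1 := by
      by_contra h
      nlinarith [not_le.1 h]
    have e1 : μ / (2 * L) = w / 2 := by rw [hw]; field_simp
    have e2 : μ / L = w := by rw [hw]; field_simp
    rw [e1, e2, div_le_div_iff₀ (by positivity) hL, hw]
    nlinarith [mul_pos w0 hL, mul_nonneg (mul_pos w0 hL).le (sub_nonneg.2 w1)]
  have a3 : I * T / G ≤ (2 - μ / L) * (k * T) / (φ * L) := by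
    calc I * T / G ≤ (1 + μ / (2 * L)) * T / (φ / k * (L / 2 + μ)) := by
          gcongr; linarith
      _ = (1 + μ / (2 * L)) / (L / 2 + μ) * (k * T / φ) := by field_simp
      _ ≤ (2 - μ / L) / L * (k * T / φ) := by gcongr
      _ = _ := by field_simp
  have a4 : T / (2 * L ^ 2) ≤ μ / (2 * L) * (k * T) / (φ * L) := by
    calc T / (2 * L ^ 2) = 1 / (2 * L) * (φ * T) / (φ * L) := by field_simp
      _ ≤ _ := by gcongr
  have e : (2 - μ / (2 * L)) * (k * T) / (φ * L) =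
      (2 - μ / L) * (k * T) / (φ * L) + μ / (2 * L) * (k * T) / (φ * L) := by field_simp; ring
  linarith

lemma core_err {C C₀ L u B T z N P₀ Λ : ℝ} (hC₀ : 1 ≤ C₀) (hL : 1000000 * C₀ ≤ L) (hC0 : 0 < C)
    (hC : C ≤ 25 * C₀ * L ^ 2) (hu : L ^ 4 ≤ u) (hB : u ^ 4 ≤ B) (hT : 0 < T) (hz0 : 0 ≤ z)
    (hz : z ^ 2 * u ^ 2 = T) (hN0 : 0 ≤ N) (hN : N ≤ B) (hP : B ^ 13 ≤ P₀) (hΛ0 : 0 ≤ Λ)
    (hΛ : Λ ≤ 16 * L ^ 2) (hZ : z * B ^ 3 * B ≤ T) :
    z * B ^ 3 + (4 * C / T * z ^ 2 * (z * Λ) ^ 2 +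
      2 * (4 * C / T * ((z * B ^ 3) ^ 2 / P₀) * (z * B ^ 3 * Λ) ^ 2 +
        N ^ 2 * ((16 * C + 32) / B ^ 7) * (z ^ 2 * B ^ 4) * Λ ^ 2)) < T / (2 * L ^ 2) := by
  have hL1 : 1000000 ≤ L := by linarith
  have hL0 : 0 < L := by linarith
  have hu1 : 1 ≤ u := (one_le_pow₀ (by linarith)).trans hu
  have hu0 : 0 < u := by linarith
  have hB1 : 1 ≤ B := (one_le_pow₀ hu1).trans hB
  have hB0 : 0 < B := by linarith
  have hzT : z ^ 2 ≤ T := hz ▸ le_mul_of_one_le_right (by positivity) (one_le_pow₀ hu1)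
  have h16 : L ^ 16 ≤ u ^ 4 := by
    calc L ^ 16 = (L ^ 4) ^ 4 := by ring
      _ ≤ _ := by gcongr
  have a1 : 4 * C / T * z ^ 2 * (z * Λ) ^ 2 ≤ 4 * C * Λ ^ 2 * (T / L ^ 16) := by
    calc _ = 4 * C * Λ ^ 2 * (T / u ^ 4) := by rw [← hz]; field_simp
      _ ≤ _ := by gcongr
  have a2 : 4 * C / T * ((z * B ^ 3) ^ 2 / P₀) * (z * B ^ 3 * Λ) ^ 2 ≤
      4 * C * Λ ^ 2 * (T / L ^ 16) := by
    calc _ = 4 * C * Λ ^ 2 * ((z ^ 2) ^ 2 * B ^ 12 / (T * P₀)) := by ring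
      _ ≤ 4 * C * Λ ^ 2 * (T ^ 2 * B ^ 12 / (T * B ^ 13)) := by gcongr
      _ = 4 * C * Λ ^ 2 * (T / B) := by field_simp
      _ ≤ _ := by gcongr; exact h16.trans hB
  have a3 : N ^ 2 * ((16 * C + 32) / B ^ 7) * (z ^ 2 * B ^ 4) * Λ ^ 2 ≤
      (16 * C + 32) * Λ ^ 2 * (T / L ^ 16) := by
    calc _ ≤ B ^ 2 * ((16 * C + 32) / B ^ 7) * (T * B ^ 4) * Λ ^ 2 := by gcongr
      _ = (16 * C + 32) * Λ ^ 2 * (T / B) := by field_simp
      _ ≤ _ := by gcongr; exact h16.trans hB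
  have a4 : z * B ^ 3 ≤ T / L ^ 16 := by
    rw [le_div_iff₀ (by positivity)]
    exact le_trans (by gcongr; exact h16.trans hB) hZ
  have a5 : 1 + (44 * C + 64) * Λ ^ 2 ≤ L ^ 7 := by
    have b0 : 1 ≤ C₀ * L ^ 2 := one_le_mul_of_one_le_of_one_le hC₀ (one_le_pow₀ (by linarith))
    have b1 : 44 * C + 64 ≤ 1200 * (C₀ * L ^ 2) := by linarith
    have b2 : (44 * C + 64) * Λ ^ 2 ≤ 1200 * (C₀ * L ^ 2) * (16 * L ^ 2) ^ 2 := by gcongr
    have b3 : 1 ≤ C₀ * L ^ 6 := one_le_mul_of_one_le_of_one_le hC₀ (one_le_pow₀ (by linarith))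
    have b4 : 1000000 * C₀ * L ^ 6 ≤ L * L ^ 6 := by gcongr
    nlinarith
  have a6 : L ^ 7 * (T / L ^ 16) < T / (2 * L ^ 2) := by
    have b1 : 2 * L ^ 2 < L ^ 9 := by
      have : L ≤ L ^ 7 := le_self_pow₀ (by linarith) (by norm_num)
      calc 2 * L ^ 2 < L ^ 7 * L ^ 2 := by gcongr; linarith
        _ = _ := by ring
    calc _ = T / L ^ 9 := by field_simp
      _ < _ := div_lt_div_of_pos_left hT (by positivity) b1
  have a7 := mul_le_mul_of_nonneg_right a5 (show 0 ≤ T / L ^ 16 by positivity)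
  linarith

theorem pCore (hGood : T_Good) (hRem : T_Rem) (hId : T_Id) (hRE : T_RE) (hG : T_G) (hPr : T_Pr) :
    T_Core := by
  obtain ⟨C₀, hC₀, hg⟩ := hGood
  obtain ⟨id1, id2, id3, id4⟩ := hId
  refine ⟨1000000 * C₀, fun n k l x y u hn hk hy hyx hl hL hu hs hT => ?_⟩
  have hk0 : k ≠ 0 := by omega
  have : NeZero k := ⟨hk0⟩
  have hk' : (0 : ℝ) < k := by exact_mod_cast hk
  have hn' : (1 : ℝ) ≤ n := by exact_mod_cast hn
  have hn2 : 1 ≤ n ^ 2 := Nat.one_le_pow _ _ hn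
  set T := y / k with hTd
  have hT0 : 0 < T := by positivity
  set L := Real.log T with hLd
  have hL1 : 1000000 ≤ L := by linarith
  have hL0 : 0 < L := by linarith
  have hLL : L ^ 2 ≤ u := (pow_le_pow_right₀ (by linarith) (by norm_num)).trans hu
  have hLu : 1000000 * L ≤ u := by nlinarith
  have hu1 : 1 ≤ u := by linarith
  have hu0 : 0 < u := by linarith
  set μ := Real.log u with hμ
  have hμ1 : 1 ≤ μ := (Real.le_log_iff_exp_le hu0).2 (by linarith [Real.exp_one_lt_d9])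
  set B := u ^ 160000 with hB
  have huB : u ≤ B := le_self_pow₀ hu1 (by norm_num)
  have hu4 : u ^ 4 ≤ B := pow_le_pow_right₀ hu1 (by norm_num)
  have hB1 : 1 ≤ B := hu1.trans huB
  have hB0 : 0 < B := by linarith
  have lB : Real.log B = 160000 * μ := by rw [hB, Real.log_pow, ← hμ]; norm_num
  clear_value B
  have pw : ∀ {a c : ℕ}, a ≤ c → B ^ a ≤ B ^ c := fun h => pow_le_pow_right₀ hB1 h
  have hlog : 163840 * (n : ℝ) ^ 2 * (160000 * μ) ≤ L := by
    have := Real.log_le_log (by positivity) hT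
    rw [Real.log_pow, lB] at this
    push_cast at this
    exact this
  have hn2' : (1 : ℝ) ≤ (n : ℝ) ^ 2 := one_le_pow₀ hn'
  have hnL : (n : ℝ) ^ 2 ≤ L := by nlinarith
  have hμL : 2 * μ ≤ L := by nlinarith
  have hnn : (n : ℝ) ≤ (n : ℝ) ^ 2 := le_self_pow₀ hn' two_ne_zero
  set s := B ^ (8192 * n ^ 3) with hsd
  have hs0 : 0 < s := by positivity
  have hks : (k : ℝ) ≤ B ^ (16384 * n ^ 3) := by
    rw [show 16384 * n ^ 3 = 8192 * n ^ 3 * 2 by ring, pow_mul, ← hs, le_div_iff₀ hT0, hTd,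
      mul_div_cancel₀ _ hk'.ne']
    exact hyx
  obtain ⟨P₁, P₂, b, hdis, hP, hK, s1, s2, s3, s4⟩ := hPr n k B hn hk0 (by linarith) (by linarith) hks
  obtain ⟨J, hJ1, hJ2⟩ : ∃ J : ℕ, 4 * L ≤ J ∧ J < 4 * L + 1 :=
    ⟨_, Nat.le_ceil _, Nat.ceil_lt_add_one (by positivity)⟩
  obtain ⟨g, hgood, hg1, hgI⟩ := hg J (by exact_mod_cast (show (2 : ℝ) ≤ J by linarith))
  set C := C₀ * (J : ℝ) ^ 2 with hC
  have hC0 := hgood.pos
  have hCL : C ≤ 25 * C₀ * L ^ 2 := by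
    calc C ≤ C₀ * (5 * L) ^ 2 := by rw [hC]; gcongr; linarith
      _ = _ := by ring
  set z := √T / u with hz
  have hz0 : 0 < z := by positivity
  have hzz : z ^ 2 * u ^ 2 = T := by rw [hz, div_pow, Real.sq_sqrt hT0.le]; field_simp
  have hzT : z ^ 2 ≤ T := hzz ▸ le_mul_of_one_le_right (by positivity) (one_le_pow₀ hu1)
  have lz : Real.log z = L / 2 - μ := by
    rw [hz, Real.log_div (by positivity) hu0.ne', Real.log_sqrt hT0.le]
  have hzB : B ^ (32768 * n ^ 2) ≤ z := by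
    refine le_of_pow_le_pow_left₀ two_ne_zero hz0.le (le_of_mul_le_mul_right ?_ (pow_pos hu0 2))
    rw [hzz]
    calc _ ≤ (B ^ (32768 * n ^ 2)) ^ 2 * B ^ 2 := by gcongr
      _ ≤ B ^ (163840 * n ^ 2) := by rw [← pow_mul, ← pow_add]; exact pw (by omega)
      _ ≤ T := hT
  have hz1 : 1 ≤ z := (one_le_pow₀ hB1).trans hzB
  have hZ : z * B ^ 3 * B ≤ T := by
    refine le_of_pow_le_pow_left₀ two_ne_zero hT0.le ?_
    calc (z * B ^ 3 * B) ^ 2 = z ^ 2 * B ^ 8 := by ring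
      _ ≤ T * T := by gcongr; exact (pw (by omega)).trans hT
      _ = _ := by ring
  have hZT : z * B ^ 3 ≤ T := (le_mul_of_one_le_right (by positivity) hB1).trans hZ
  have hzZ : z ≤ z * B ^ 3 := le_mul_of_one_le_right hz0.le (one_le_pow₀ hB1)
  have hT1 : 1 ≤ T := (hz1.trans hzZ).trans hZT
  set Λ := (2 + 2 * L) ^ 2 with hΛ
  have hΛ1 : Λ ≤ 16 * L ^ 2 := by rw [hΛ]; nlinarith
  have hw : ∀ (W : ℕ) (Y : ℝ), 0 ≤ Y → Y ≤ z * B ^ 3 → ∑ S ∈ LL W Y, wt S ≤ Y * Λ :=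
    fun W Y h1 h2 => id3 W Y T h1 (h2.trans hZT) hT1
  have hlu : IsUnit (l : ZMod k) :=
    (ZMod.coe_int_isUnit_iff_isCoprime _ _).2 (Int.isCoprime_iff_gcd_eq_one.2 hl).symm
  set R := rem g k (l : ZMod k) (x - y) y with hR
  have htriv : ∀ d : ℕ, d ≠ 0 → Nat.Coprime d k → |R d| ≤ 4 * C / T * d := fun d h1 h2 =>
    (rem_triv hgood k l (x - y) hy h1 h2).trans (le_of_eq (by ring))
  obtain ⟨hE, hE2⟩ := hRE R k (16384 * n ^ 2) P₁ P₂ b (4 * C / T) z B (B ^ (4096 * n ^ 2))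
    ((16 * C + 32) / B ^ 7) Λ (by positivity) hz1 hB1 (by positivity) (by positivity)
    (by positivity) hdis (fun p hp => by
      obtain ⟨a1, a2, a3, a4, a5, a6⟩ := hP p hp
      exact ⟨a1, a2, (pw a5).trans a3, a4, a6⟩) htriv hw
    (fun i j q PP MM γ β hq hqk hPP hMM hγ hβ hqz => by
      rcases PP.eq_empty_or_nonempty with rfl | ⟨p, hp⟩
      · simp only [Finset.sum_empty, Finset.sum_const_zero, abs_zero]; positivity
      rcases MM.eq_empty_or_nonempty with rfl | ⟨m, hm⟩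
      · simp only [Finset.sum_empty, abs_zero]; positivity
      obtain ⟨K, k1, k2, k3, k4⟩ := hK p (hPP p hp).1
      have hi := (hP p (Finset.mem_union_left _ (hPP p hp).1)).2.2.2.2.1
      have hj := (hP m (Finset.mem_union_right _ (hMM m hm).1)).2.2.2.2.1
      rw [(hPP p hp).2] at k3 k4 hi
      rw [(hMM m hm).2] at hj
      have hex : ∃ M : ℕ, 8192 * n ^ 3 ≤ j * M := ⟨2 * n, by nlinarith⟩
      classical
      have m1 := Nat.find_spec hex
      have m2 : Nat.find hex ≤ 2 * n := Nat.find_min' hex (by nlinarith)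
      have m3 : 1 ≤ Nat.find hex := by
        by_contra h
        rw [show Nat.find hex = 0 by omega] at m1
        have : 1 ≤ n ^ 3 := Nat.one_le_pow _ _ hn
        omega
      have m4 := not_le.1 (Nat.find_min hex (show Nat.find hex - 1 < Nat.find hex by omega))
      generalize Nat.find hex = M at m1 m2 m3 m4
      have hKM : K * M ≤ 4 * n ^ 2 := by nlinarith
      refine hRem g C hgood k l hlu x y s (B ^ (256 * n ^ 2)) B (B ^ i) (B ^ j) K M q PP MM γ β hy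
        hyx hs.symm hs0 hq hqk k1 m3 hγ hβ (fun p hp => ?_) (fun p hp => ?_) ?_
        (le_self_pow₀ hB1 (by omega)) (le_self_pow₀ hB1 (by omega)) (pw (by omega)) ?_ ?_ ?_ ?_
        (hqz.trans (by gcongr))
      · obtain ⟨a1, a2, a3, a4, -⟩ := hP p (Finset.mem_union_left _ (hPP p hp).1)
        rw [(hPP p hp).2] at a3 a4
        exact ⟨a1, a3, a4, a2⟩
      · obtain ⟨a1, a2, a3, a4, -⟩ := hP p (Finset.mem_union_right _ (hMM p hp).1)
        rw [(hMM p hp).2] at a3 a4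
        exact ⟨a1, a3, a4, a2⟩
      · have : (K : ℝ) * M ≤ 4 * (n : ℝ) ^ 2 := by exact_mod_cast hKM
        linarith
      · rw [hsd, ← pow_mul, ← pow_mul, ← pow_add]; exact pw (by omega)
      · rw [hsd, ← pow_succ, ← pow_mul, ← pow_mul, ← pow_add]; exact pw (by omega)
      · rw [hsd, ← pow_mul]; exact pw m4.le
      · rw [hsd, ← pow_mul]; exact pw m1)
  set E := EE k P₁ P₂ b z B with hEd
  have hD : LL k z ∪ E ⊆ LL k (z * B ^ 3) := Finset.union_subset (LL_mono hzZ) hE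
  set G := ∑ S ∈ LL k z ∪ E, gg S with hGd
  have hG1 : 1 ≤ G := (one_le_GG hz1).trans (Finset.sum_le_sum_of_subset_of_nonneg
    Finset.subset_union_left fun S hS _ => (gg_pos' (hD hS)).le)
  have hφ : (0 : ℝ) < k.totient := by exact_mod_cast Nat.totient_pos.2 hk
  have hGl : (k.totient : ℝ) / k * (L / 2 + μ) ≤ G := by
    refine le_trans (mul_le_mul_of_nonneg_left ?_ (by positivity)) (hG k P₁ P₂ b z B hk0 hz1 hB1
      hdis (fun p hp => ⟨(hP p hp).1, (hP p hp).2.1, (hP p hp).2.2.1⟩) fun p hp m hm =>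
        (pw ?_).trans hzB)
    · rw [lz, lB]
      generalize ∑ p ∈ P₁, (p : ℝ)⁻¹ = σ₁ at s1 s2
      generalize ∑ p ∈ P₂, (p : ℝ)⁻¹ = σ₂ at s3 s4
      have a1 : 80000 * μ ≤ 160000 * μ - 1 - (σ₁ + σ₂) * (160000 * μ + 1) := by
        have : (σ₁ + σ₂) * (160000 * μ + 1) ≤ 1 / 40 * (160000 * μ + 1) := by gcongr; linarith
        linarith
      have a2 : 1 / 400 * (1 / 100) * (80000 * μ) ≤
          σ₁ * σ₂ * (160000 * μ - 1 - (σ₁ + σ₂) * (160000 * μ + 1)) := by gcongr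
      linarith
    · have a1 := (hP p (Finset.mem_union_left _ hp)).2.2.2.2.2
      have a2 := (hP m (Finset.mem_union_right _ hm)).2.2.2.2.2
      omega
  have hcnt := count_le hgood.nonneg hg1 k l (x := x) hy (show 0 ≤ z * B ^ 3 by positivity)
    (show 0 < G by linarith) (FF (LL k z ∪ E)) (id2 k _ _ hD)
  rw [id1 g k l (x - y) y _ fun S hS p hp => ((mem_LL.1 (hD hS)).1 p hp).1, ← hR, ← hGd, ← hTd,
    core_split] at hcnt
  have r1 := id4 R k (4 * C / T) z Λ (LL k z \ E) (by positivity) hz0.le htriv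
    Finset.sdiff_subset (hw k z hz0.le hzZ)
  have r2 := hE2 (LL k z \ E) (Finset.sdiff_subset.trans (LL_mono hzZ))
  have r3 := hE2 _ hD
  have herr := core_err (N := ((16384 * n ^ 2 : ℕ) : ℝ)) (P₀ := B ^ (4096 * n ^ 2)) hC₀ hL hC0 hCL
    hu hu4 hT0 hz0.le hzz (by positivity) (by push_cast; linarith) (pw (by omega))
    (show 0 ≤ Λ by positivity) hΛ1 hZ
  have hfin := core_num hL0 hμ1 hμL hJ1 hgI hφ (by exact_mod_cast Nat.totient_le k) hT0 hGl herr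
  rw [show (k : ℝ) * T = y from mul_div_cancel₀ _ hk'.ne'] at hfin
  refine lt_of_le_of_lt (hcnt.trans ?_) hfin
  generalize RR R (LL k z \ E) (LL k z \ E) = e₁ at r1
  generalize RR R E (LL k z \ E) = e₂ at r2
  generalize RR R E (LL k z ∪ E) = e₃ at r3
  have f1 : (e₁ + e₂ + e₃) / G ^ 2 ≤ |e₁| + |e₂| + |e₃| := by
    refine le_trans (div_le_div_of_nonneg_right ?_ (by positivity))
      (div_le_self (by positivity) (one_le_pow₀ hG1))
    linarith [le_abs_self e₁, le_abs_self e₂, le_abs_self e₃]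
  have f2 : ((∫ v, g v) * T * G + (e₁ + e₂ + e₃)) / G ^ 2 =
      (∫ v, g v) * T / G + (e₁ + e₂ + e₃) / G ^ 2 := by field_simp
  rw [f2]
  linarith

end Pool.Agent.P.MP_26a8c3_nt.U
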