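import Pool.Agent.P.MP_26a8c3_nt.U.St
import Pool.Agent.P.MP_26a8c3_nt.QE.All
import Pool.Agent.P.MP_26a8c3_nt.Lg.All

/-! The four ranges. -/

namespace Pool.Agent.P.MP_26a8c3_nt.U

lemma fin_add {N y φ L e d : ℝ} (hy : 0 < y) (hφ : 0 < φ) (hL : 0 < L) (he : 0 ≤ e)
    (h : N < 2 * y / (φ * (L + e))) (hd : d * (L + e) ≤ 2 * e) : N < (2 - d) * y / (φ * L) := by
  refine h.trans_le ?_
  rw [div_le_div_iff₀ (by positivity) (by positivity)]
  nlinarith [mul_le_mul_of_nonneg_left hd (mul_pos hy hφ).le]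

theorem pFin (h : T_Core) : T_Main := by
  obtain ⟨L₀, core⟩ := h
  obtain ⟨δ, hδ, pr⟩ := QE.fin QE.sZ 2
  obtain ⟨c₁, hc₁, t₀, lg⟩ := Lg.main_all
  have hc : 0 < 5 / 2 - Real.log 5 := by linarith [Real.log_five_lt_d9]
  set c₀ := 5 / 2 - Real.log 5 with hc₀
  set L₁ := max L₀ (max t₀ 3) with hL₁
  have hL₁3 : 3 ≤ L₁ := (le_max_right _ _).trans (le_max_right _ _)
  obtain ⟨c, c0, c1, c2, c3, c4⟩ : ∃ c : ℝ, 0 < c ∧ c ≤ δ ∧ c ≤ 2 * c₀ / (L₁ + c₀) ∧
      c ≤ 1 / (14 * 10 ^ 12) ∧ c ≤ c₁ / ((1 + c₁) * (14 * 10 ^ 12)) :=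
    ⟨min (min δ (2 * c₀ / (L₁ + c₀))) (min (1 / (14 * 10 ^ 12)) (c₁ / ((1 + c₁) * (14 * 10 ^ 12)))),
      by positivity, (min_le_left _ _).trans (min_le_left _ _),
      (min_le_left _ _).trans (min_le_right _ _), (min_le_right _ _).trans (min_le_left _ _),
      (min_le_right _ _).trans (min_le_right _ _)⟩
  refine ⟨c, c0, fun k l x y hk hky hyx hl => ?_⟩
  have hk' : (0 : ℝ) < k := by exact_mod_cast hk
  have hk1 : (1 : ℝ) ≤ k := by exact_mod_cast hk
  have hy : 0 < y := hk'.trans hky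
  have hx : 0 < x := hy.trans_le hyx
  have hφ : (0 : ℝ) < k.totient := by exact_mod_cast Nat.totient_pos.2 hk
  have hT1 : 1 < y / k := (one_lt_div hk').2 hky
  have hT0 : 0 < y / k := by positivity
  have hL : 0 < Real.log (y / k) := Real.log_pos hT1
  have hLX : Real.log (y / k) ≤ Real.log x :=
    Real.log_le_log hT0 ((div_le_self hy.le hk1).trans hyx)
  have eT : Real.exp (Real.log (y / k)) = y / k := Real.exp_log hT0
  have eX : Real.exp (Real.log x) = x := Real.exp_log hx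
  have hs := HybS.exists_good (k := k) hk l x y
  have pr' := pr k l x y hk hky hyx hl
  have lg' := lg k l x y hk
  have core' := fun n u hn => core n k l x y u hn hk hy hyx hl
  have hTL : Real.log (y / k) ≤ y / k := (Real.log_le_sub_one_of_pos hT0).trans (by linarith)
  set L := Real.log (y / k) with hLd
  set X := Real.log x with hXd
  have hX : 0 < X := hL.trans_le hLX
  set a := (L / X) ^ 2 with ha
  have a0 : 0 ≤ a := by positivity
  have a1 : a ≤ 1 := pow_le_one₀ (by positivity) ((div_le_one hX).2 hLX)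
  have a2 : c * a ≤ c := mul_le_of_le_one_right c0.le a1
  have red : ∀ {N d : ℝ}, N < (2 - d) * y / (k.totient * L) → c * a ≤ d →
      N < (2 - c * a) * y / (k.totient * L) := fun h1 h2 => h1.trans_le (by gcongr)
  rcases lt_or_ge L L₁ with h1 | h1
  · obtain ⟨l', S, hS, hcard⟩ := hs
    rw [hcard]
    refine fin_add hy hφ hL hc.le (HybS.sharp_fin hS hk hky) ?_
    rw [le_div_iff₀ (by positivity)] at c2
    exact le_trans (by gcongr) c2
  rcases le_or_gt X (2 * L) with h2 | h2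
  · refine red (pr' ?_) (a2.trans c1)
    rw [Real.rpow_def_of_pos hT0, ← eX, ← hLd]
    exact Real.exp_le_exp.2 (by linarith)
  obtain ⟨n, hn1, hn2⟩ : ∃ n : ℕ, 10 * (X / L) ≤ n ∧ n < 10 * (X / L) + 1 :=
    ⟨_, Nat.le_ceil _, Nat.ceil_lt_add_one (by positivity)⟩
  have hA : 2 < X / L := by rwa [lt_div_iff₀ hL]
  have hn0 : (0 : ℝ) < n := by linarith
  set μ := (X - L) / (2621440000 * (n : ℝ) ^ 3) with hμ
  have hμa : L * a ≤ 7 * 10 ^ 12 * μ := by
    have b1 : (n : ℝ) ^ 3 ≤ (11 * (X / L)) ^ 3 := by gcongr; linarith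
    calc L * a = 7 * 10 ^ 12 * (X / 2 / (7 * 10 ^ 12 / (2 * 1331) * (11 * (X / L)) ^ 3)) := by
          rw [ha]; field_simp; norm_num
      _ ≤ _ := by
        rw [hμ]
        gcongr
        · linarith
        · norm_num
  rcases le_or_gt (L ^ 4) (Real.exp μ) with h3 | h3
  · refine red (core' n (Real.exp μ) (by exact_mod_cast (show (0 : ℝ) < n from hn0))
      ((le_max_left _ _).trans h1) h3 ?_ ?_) ?_
    · rw [← Real.exp_nat_mul, ← Real.exp_nat_mul, ← Real.exp_nat_mul, ← eT, ← eX, ← Real.exp_sub, hμ]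
      congr 1
      push_cast
      field_simp
      ring
    · rw [← Real.exp_nat_mul, ← Real.exp_nat_mul, ← eT]
      refine Real.exp_le_exp.2 ?_
      have e : ((163840 * n ^ 2 : ℕ) : ℝ) * (((160000 : ℕ) : ℝ) * μ) = 10 * (X - L) / n := by
        rw [hμ]; push_cast; field_simp; ring
      rw [e, div_le_iff₀ hn0]
      rw [← mul_div_assoc, div_le_iff₀ hL] at hn1
      linarith
    · rw [Real.log_exp, le_div_iff₀ (by positivity)]
      calc c * a * (2 * L) = 2 * c * (L * a) := by ring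
        _ ≤ 2 * (1 / (14 * 10 ^ 12)) * (7 * 10 ^ 12 * μ) := by gcongr
        _ = μ := by ring
  · have b0 : 0 ≤ Real.log L := Real.log_nonneg (by linarith)
    have b1 : μ ≤ 4 * Real.log L := by
      have := Real.log_le_log (Real.exp_pos μ) h3.le
      rw [Real.log_exp, Real.log_pow] at this
      exact_mod_cast this
    have b2 : Real.log L ≤ L := (Real.log_le_sub_one_of_pos hL).trans (by linarith)
    refine fin_add hy hφ hL (by positivity) (lg' (le_trans ?_ (h1.trans hTL))) ?_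
    · exact (le_max_left _ _).trans (le_max_right _ _)
    · calc c * a * (L + c₁ * Real.log L) ≤ c * a * (L + c₁ * L) := by gcongr
        _ = c * (1 + c₁) * (L * a) := by ring
        _ ≤ c₁ / ((1 + c₁) * (14 * 10 ^ 12)) * (1 + c₁) * (7 * 10 ^ 12 * (4 * Real.log L)) := by
          exact mul_le_mul (by gcongr) (by linarith) (by positivity) (by positivity)
        _ = _ := by field_simp; ring

end Pool.Agent.P.MP_26a8c3_nt.U
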