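import Pool.Agent.P.MP_26a8c3_nt.U.St

/-! The normalising sum of the enlarged support. -/

namespace Pool.Agent.P.MP_26a8c3_nt.U

open Finset Pool.Agent.P.MP_26a8c3_nt.Hyb

lemma G_fib {k : ℕ} (hk : k ≠ 0) (D : Finset (Finset ℕ))
    (hD : ∀ S ∈ D, ∀ p ∈ S, p.Prime ∧ Nat.Coprime p k) (A : Finset ℕ)
    (hA : ∀ n ∈ A, n ≠ 0 ∧ n.primeFactors \ k.primeFactors ∈ D) :
    (k.totient : ℝ) / k * ∑ n ∈ A, (n : ℝ)⁻¹ ≤ ∑ S ∈ D, gg S := by
  classical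
  have hφ : (0 : ℝ) < k.totient := by exact_mod_cast Nat.totient_pos.2 (Nat.pos_of_ne_zero hk)
  have hk' : (0 : ℝ) < k := by exact_mod_cast Nat.pos_of_ne_zero hk
  have e : ∏ p ∈ k.primeFactors, (1 - (p : ℝ)⁻¹)⁻¹ = k / k.totient := by
    have := congrArg (Rat.cast : ℚ → ℝ) (Nat.totient_eq_mul_prod_factors k)
    push_cast at this
    rw [Finset.prod_inv_distrib, this]
    field_simp
  have h1 : ∑ n ∈ A, (n : ℝ)⁻¹ ≤ (∑ S ∈ D, gg S) * (k / k.totient) := by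
    rw [← Finset.sum_fiberwise_of_maps_to fun n hn => (hA n hn).2, Finset.sum_mul, ← e]
    refine Finset.sum_le_sum fun U hU => ?_
    refine sum_inv_fiber (fun p hp => (hD U hU p hp).1)
      (fun p hp => Nat.prime_of_mem_primeFactors hp) (Finset.disjoint_left.2 fun p hp hp' => ?_) _
      fun n hn => ?_
    · obtain ⟨a, b⟩ := hD U hU p hp
      exact (Nat.Prime.coprime_iff_not_dvd a).1 b (Nat.dvd_of_mem_primeFactors hp')
    · obtain ⟨a, rfl⟩ := Finset.mem_filter.1 hn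
      exact ⟨(hA n a).1, (Finset.prod_dvd_prod_of_subset _ _ _ Finset.sdiff_subset).trans
          (Nat.prod_primeFactors_dvd n), Finset.subset_union_left.trans
            (Finset.sdiff_union_self_eq_union).superset⟩
  calc _ ≤ (k.totient : ℝ) / k * ((∑ S ∈ D, gg S) * (k / k.totient)) :=
        mul_le_mul_of_nonneg_left h1 (by positivity)
    _ = _ := by field_simp

lemma G_mem {k W n : ℕ} (hk : k ≠ 0) (hn : n ≠ 0) {z : ℝ} (hz : (n : ℝ) ≤ z)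
    (hW : ∀ p : ℕ, p.Prime → p ∣ n → ¬ p ∣ k → ¬ p ∣ W) :
    n.primeFactors \ k.primeFactors ∈ LL W z := by
  refine mem_LL.2 ⟨fun p hp => ?_, ?_⟩
  · obtain ⟨c, d⟩ := Finset.mem_sdiff.1 hp
    have hp' := Nat.prime_of_mem_primeFactors c
    exact ⟨hp', (Nat.Prime.coprime_iff_not_dvd hp').2 (hW p hp' (Nat.dvd_of_mem_primeFactors c)
      fun h => d (Nat.mem_primeFactors.2 ⟨hp', h, hk⟩))⟩
  · have : dd (n.primeFactors \ k.primeFactors) ≤ n := Nat.le_of_dvd (Nat.pos_of_ne_zero hn)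
      ((Finset.prod_dvd_prod_of_subset _ _ _ Finset.sdiff_subset).trans
        (Nat.prod_primeFactors_dvd n))
    exact (Nat.cast_le.2 this).trans hz

lemma G_lo {z : ℝ} (hz : 0 ≤ z) : Real.log z ≤ ∑ n ∈ Finset.Ioc 0 ⌊z⌋₊, (n : ℝ)⁻¹ := by
  have := log_le_harmonic_floor z hz
  rw [harmonic_eq_sum_Icc] at this
  push_cast at this
  exact this

lemma G_hi {z : ℝ} (hz : 1 ≤ z) : ∑ n ∈ Finset.Ioc 0 ⌊z⌋₊, (n : ℝ)⁻¹ ≤ 1 + Real.log z := by
  have := harmonic_floor_le_one_add_log z hz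
  rw [harmonic_eq_sum_Icc] at this
  push_cast at this
  exact this

lemma G_spl {a B : ℝ} (ha : 0 ≤ a) (hB : 1 ≤ B) :
    ∑ n ∈ Finset.Ioc ⌊a⌋₊ ⌊a * B⌋₊, (n : ℝ)⁻¹ =
      ∑ n ∈ Finset.Ioc 0 ⌊a * B⌋₊, (n : ℝ)⁻¹ - ∑ n ∈ Finset.Ioc 0 ⌊a⌋₊, (n : ℝ)⁻¹ := by
  rw [← Finset.sum_Ioc_consecutive _ (Nat.zero_le ⌊a⌋₊)
    (Nat.floor_le_floor (le_mul_of_one_le_right ha hB)), add_sub_cancel_left]

lemma G_low {a B : ℝ} (ha : 1 ≤ a) (hB : 1 ≤ B) :
    Real.log B - 1 ≤ ∑ n ∈ Finset.Ioc ⌊a⌋₊ ⌊a * B⌋₊, (n : ℝ)⁻¹ := by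
  have h1 := G_lo (z := a * B) (by positivity)
  have h2 := G_hi ha
  rw [Real.log_mul (by positivity) (by positivity)] at h1
  rw [G_spl (by linarith) hB]
  linarith

lemma G_up {a B : ℝ} (ha : 0 ≤ a) (hB : 1 ≤ B) :
    ∑ n ∈ Finset.Ioc ⌊a⌋₊ ⌊a * B⌋₊, (n : ℝ)⁻¹ ≤ Real.log B + 1 := by
  rcases le_total 1 a with h | h
  · have h1 := G_hi (z := a * B) (one_le_mul_of_one_le_of_one_le h hB)
    have h2 := G_lo ha
    rw [Real.log_mul (by positivity) (by positivity)] at h1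
    rw [G_spl ha hB]
    linarith
  · refine le_trans (Finset.sum_le_sum_of_subset_of_nonneg (Finset.Ioc_subset_Ioc (Nat.zero_le _)
      (Nat.floor_le_floor (mul_le_of_le_one_left (by linarith) h))) fun _ _ _ => by positivity) ?_
    linarith [G_hi hB]

lemma G_rough (PP : Finset ℕ) (hpr : ∀ p ∈ PP, p.Prime) {a B : ℝ} (ha : 1 ≤ a) (hB : 1 ≤ B) :
    Real.log B - 1 - (∑ p ∈ PP, (p : ℝ)⁻¹) * (Real.log B + 1) ≤
      ∑ n ∈ (Finset.Ioc ⌊a⌋₊ ⌊a * B⌋₊).filter fun n => ∀ p ∈ PP, ¬ p ∣ n, (n : ℝ)⁻¹ := by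
  classical
  have h4 : ∑ n ∈ Finset.Ioc ⌊a⌋₊ ⌊a * B⌋₊, (n : ℝ)⁻¹ ≤
      ∑ n ∈ (Finset.Ioc ⌊a⌋₊ ⌊a * B⌋₊).filter fun n => ∀ p ∈ PP, ¬ p ∣ n, (n : ℝ)⁻¹ +
      ∑ p ∈ PP, ∑ n ∈ (Finset.Ioc ⌊a⌋₊ ⌊a * B⌋₊).filter (p ∣ ·), (n : ℝ)⁻¹ := by
    simp only [Finset.sum_filter]
    rw [Finset.sum_comm (s := PP), ← Finset.sum_add_distrib]
    refine Finset.sum_le_sum fun n _ => ?_
    have h0 : ∀ p ∈ PP, 0 ≤ if p ∣ n then (n : ℝ)⁻¹ else 0 := fun p _ => by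
      split_ifs <;> positivity
    split_ifs with h
    · linarith [Finset.sum_nonneg h0]
    · push Not at h
      obtain ⟨p, hp, hd⟩ := h
      have := Finset.single_le_sum h0 hp
      rw [if_pos hd] at this
      linarith
  have h5 : ∀ p ∈ PP, ∑ n ∈ (Finset.Ioc ⌊a⌋₊ ⌊a * B⌋₊).filter (p ∣ ·), (n : ℝ)⁻¹ ≤
      (p : ℝ)⁻¹ * (Real.log B + 1) := by
    intro p hp
    have p0 : (0 : ℝ) < p := by exact_mod_cast (hpr p hp).pos
    rw [sum_inv_dvd _ fun n hn => (Finset.mem_filter.1 hn).2]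
    refine mul_le_mul_of_nonneg_left (le_trans (Finset.sum_le_sum_of_subset_of_nonneg
      (fun m hm => ?_) fun _ _ _ => by positivity) (G_up (a := a / p) (by positivity) hB))
      (by positivity)
    obtain ⟨n, hn, rfl⟩ := Finset.mem_image.1 hm
    obtain ⟨c, ⟨m, rfl⟩⟩ := Finset.mem_filter.1 hn
    obtain ⟨a1, a2⟩ := Finset.mem_Ioc.1 c
    have b1 := (Nat.floor_lt (by linarith)).1 a1
    have b2 := (Nat.cast_le.2 a2).trans (Nat.floor_le (show 0 ≤ a * B by positivity))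
    push_cast at b1 b2
    rw [Nat.mul_div_cancel_left _ (hpr p hp).pos]
    refine Finset.mem_Ioc.2 ⟨(Nat.floor_lt (by positivity)).2 ?_, Nat.le_floor ?_⟩
    · rw [div_lt_iff₀ p0]; linarith
    · rw [div_mul_eq_mul_div, le_div_iff₀ p0]; linarith
  have h6 := Finset.sum_le_sum h5
  rw [← Finset.sum_mul] at h6
  linarith [G_low ha hB]

theorem pG : T_G := by
  classical
  intro k P₁ P₂ b z B hk hz hB hd hP hb
  have B0 : 0 < B := by linarith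
  have q1 : ∀ p ∈ P₁, p ∈ P₁ ∪ P₂ := fun p hp => Finset.mem_union_left _ hp
  have q2 : ∀ p ∈ P₂, p ∈ P₁ ∪ P₂ := fun p hp => Finset.mem_union_right _ hp
  set M : ℕ × ℕ → Finset ℕ := fun p => (Finset.Ioc ⌊z / B ^ (b p.1 + b p.2)⌋₊
    ⌊z / B ^ (b p.1 + b p.2) * B⌋₊).filter fun n => ∀ q ∈ P₁ ∪ P₂, ¬ q ∣ n with hM
  set T := (P₁ ×ˢ P₂).sigma M with hT
  set f : (Σ _ : ℕ × ℕ, ℕ) → ℕ := fun x => x.1.1 * (x.1.2 * x.2) with hf
  have hx : ∀ x ∈ T, x.1.1 ∈ P₁ ∧ x.1.2 ∈ P₂ ∧ z / B ^ (b x.1.1 + b x.1.2) < x.2 ∧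
      (x.2 : ℝ) ≤ z * B / B ^ (b x.1.1 + b x.1.2) ∧ x.2 ≠ 0 ∧ ∀ q ∈ P₁ ∪ P₂, ¬ q ∣ x.2 := by
    intro x hx
    obtain ⟨a, c⟩ := Finset.mem_sigma.1 hx
    obtain ⟨a1, a2⟩ := Finset.mem_product.1 a
    obtain ⟨c1, c2⟩ := Finset.mem_filter.1 c
    obtain ⟨d1, d2⟩ := Finset.mem_Ioc.1 c1
    refine ⟨a1, a2, (Nat.floor_lt (by positivity)).1 d1, ?_, by omega, c2⟩
    rw [← div_mul_eq_mul_div]
    exact (Nat.cast_le.2 d2).trans (Nat.floor_le (by positivity))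
  have hinj : Set.InjOn f (T : Set (Σ _ : ℕ × ℕ, ℕ)) := by
    rintro ⟨⟨p, q⟩, m⟩ h ⟨⟨p', q'⟩, m'⟩ h' e
    obtain ⟨a1, a2, -, -, -, a3⟩ := hx _ h
    obtain ⟨c1, c2, -, -, -, c3⟩ := hx _ h'
    change p * (q * m) = p' * (q' * m') at e
    have pp := (hP p (q1 p a1)).1
    have pq := (hP q (q2 q a2)).1
    have e1 : p = p' := by
      rcases (Nat.Prime.dvd_mul pp).1 (e ▸ Dvd.intro _ rfl : p ∣ p' * (q' * m')) with g | g
      · exact (Nat.prime_dvd_prime_iff_eq pp (hP p' (q1 p' c1)).1).1 g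
      · rcases (Nat.Prime.dvd_mul pp).1 g with g | g
        · have := (Nat.prime_dvd_prime_iff_eq pp (hP q' (q2 q' c2)).1).1 g
          exact absurd (this ▸ c2) (Finset.disjoint_left.1 hd a1)
        · exact absurd g (c3 p (q1 p a1))
    subst e1
    have e' := Nat.eq_of_mul_eq_mul_left pp.pos e
    have e2 : q = q' := by
      rcases (Nat.Prime.dvd_mul pq).1 (e' ▸ Dvd.intro _ rfl : q ∣ q' * m') with g | g
      · exact (Nat.prime_dvd_prime_iff_eq pq (hP q' (q2 q' c2)).1).1 g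
      · exact absurd g (c3 q (q2 q a2))
    subst e2
    rw [Nat.eq_of_mul_eq_mul_left pq.pos e']
  have hdis : Disjoint (Finset.Ioc 0 ⌊z⌋₊) (T.image f) := by
    refine Finset.disjoint_left.2 fun n hn hn' => ?_
    obtain ⟨x, h, rfl⟩ := Finset.mem_image.1 hn'
    obtain ⟨a1, a2, a3, -⟩ := hx x h
    have c1 := (Nat.cast_le.2 (Finset.mem_Ioc.1 hn).2).trans (Nat.floor_le (show 0 ≤ z by linarith))
    have c2 := (hP _ (q1 _ a1)).2.2
    have c3 := (hP _ (q2 _ a2)).2.2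
    rw [div_lt_iff₀ (by positivity), pow_add] at a3
    have c4 : (x.2 : ℝ) * (B ^ b x.1.1 * B ^ b x.1.2) ≤ x.2 * (x.1.1 * x.1.2) := by gcongr
    simp only [hf] at c1
    push_cast at c1
    linarith
  have h1 := G_fib hk (LL k z ∪ EE k P₁ P₂ b z B) (fun S hS p hp => by
      rcases Finset.mem_union.1 hS with h | h
      · exact (mem_LL.1 h).1 p hp
      · obtain ⟨x, h', rfl⟩ := Finset.mem_image.1 h
        obtain ⟨a, c⟩ := Finset.mem_sigma.1 h'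
        obtain ⟨a1, a2⟩ := Finset.mem_product.1 a
        rcases Finset.mem_insert.1 hp with rfl | hp
        · exact ⟨(hP _ (q1 _ a1)).1, (hP _ (q1 _ a1)).2.1⟩
        rcases Finset.mem_insert.1 hp with rfl | hp
        · exact ⟨(hP _ (q2 _ a2)).1, (hP _ (q2 _ a2)).2.1⟩
        · obtain ⟨d1, d2⟩ := (mem_LL.1 c).1 p hp
          exact ⟨d1, Nat.Coprime.coprime_mul_right_right d2⟩)
    (Finset.Ioc 0 ⌊z⌋₊ ∪ T.image f) (fun n hn => by
      rcases Finset.mem_union.1 hn with h | h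
      · obtain ⟨a1, a2⟩ := Finset.mem_Ioc.1 h
        exact ⟨a1.ne', Finset.mem_union_left _ (G_mem hk a1.ne'
          ((Nat.cast_le.2 a2).trans (Nat.floor_le (by linarith))) fun _ _ _ h => h)⟩
      · obtain ⟨x, h', rfl⟩ := Finset.mem_image.1 h
        obtain ⟨a1, a2, -, a4, a5, a6⟩ := hx x h'
        obtain ⟨c1, c2, -⟩ := hP _ (q1 _ a1)
        obtain ⟨d1, d2, -⟩ := hP _ (q2 _ a2)
        refine ⟨mul_ne_zero c1.ne_zero (mul_ne_zero d1.ne_zero a5), Finset.mem_union_right _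
          (Finset.mem_image.2 ⟨⟨x.1, x.2.primeFactors \ k.primeFactors⟩, Finset.mem_sigma.2
            ⟨Finset.mem_product.2 ⟨a1, a2⟩, G_mem hk a5 a4 fun p pp g1 g2 g3 => ?_⟩, ?_⟩)⟩
        · rcases (Nat.Prime.dvd_mul pp).1 g3 with g | g
          · exact g2 g
          · obtain ⟨q, hq, g⟩ := (Prime.dvd_finsetProd_iff pp.prime _).1 g
            exact a6 q hq (((Nat.prime_dvd_prime_iff_eq pp (hP q hq).1).1 g) ▸ g1)
        · simp only [hf]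
          rw [Nat.primeFactors_mul c1.ne_zero (mul_ne_zero d1.ne_zero a5),
            Nat.primeFactors_mul d1.ne_zero a5, c1.primeFactors, d1.primeFactors,
            ← Finset.insert_eq, ← Finset.insert_eq, Finset.insert_sdiff_of_notMem,
            Finset.insert_sdiff_of_notMem]
          · exact fun g => (Nat.Prime.coprime_iff_not_dvd d1).1 d2 (Nat.dvd_of_mem_primeFactors g)
          · exact fun g => (Nat.Prime.coprime_iff_not_dvd c1).1 c2 (Nat.dvd_of_mem_primeFactors g))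
  refine le_trans (mul_le_mul_of_nonneg_left ?_ (by positivity)) h1
  rw [Finset.sum_union hdis, Finset.sum_image hinj, hT, Finset.sum_sigma, Finset.sum_mul_sum,
    ← Finset.sum_product', Finset.sum_mul]
  refine add_le_add (G_lo (by linarith)) (Finset.sum_le_sum fun p hp => ?_)
  obtain ⟨a1, a2⟩ := Finset.mem_product.1 hp
  have h2 := G_rough (P₁ ∪ P₂) (fun q hq => (hP q hq).1) (a := z / B ^ (b p.1 + b p.2))
    ((one_le_div (by positivity)).2 (hb _ a1 _ a2)) hB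
  rw [Finset.sum_union hd] at h2
  refine (mul_le_mul_of_nonneg_left h2 (by positivity)).trans (le_of_eq ?_)
  rw [Finset.mul_sum]
  refine Finset.sum_congr rfl fun m _ => ?_
  simp only [hf]
  push_cast
  rw [mul_inv, mul_inv, mul_assoc]

end Pool.Agent.P.MP_26a8c3_nt.U
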