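import Pool.Agent.P.MP_26a8c3_nt.U.St

/-! Test functions whose decay constant grows like a square. -/

namespace Pool.Agent.P.MP_26a8c3_nt.U

open Finset Real MeasureTheory Pool.Agent.P.MP_26a8c3_nt.Hyb
open scoped FourierTransform ContDiff

/-- one piece of the partition of unity -/
noncomputable def goodP (t : ℝ) : ℝ := smoothTransition (t + 1) - smoothTransition t

lemma goodP_smooth : ContDiff ℝ ∞ goodP :=
  (smoothTransition.contDiff.comp (contDiff_id.add contDiff_const)).sub smoothTransition.contDiff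

lemma goodP_supp (v : ℝ) (h : goodP v ≠ 0) : -1 ≤ v ∧ v ≤ 2 := by
  refine ⟨not_lt.1 fun h1 => h ?_, not_lt.1 fun h1 => h ?_⟩
  · rw [goodP, smoothTransition.zero_of_nonpos (by linarith),
      smoothTransition.zero_of_nonpos (by linarith), sub_self]
  · rw [goodP, smoothTransition.one_of_one_le (by linarith),
      smoothTransition.one_of_one_le (by linarith), sub_self]

lemma goodP_decay : ∃ C : ℝ, 0 < C ∧ ∀ ξ : ℝ, ξ ≠ 0 → ‖hat goodP ξ‖ ≤ C / ξ ^ 2 := by
  have h3 : HasCompactSupport fun v => ((goodP v : ℝ) : ℂ) :=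
    cpt_of goodP_supp one_pos fun u hu => by simpa using hu
  have h4 : ContDiff ℝ ∞ fun v => ((goodP v : ℝ) : ℂ) :=
    Complex.ofRealCLM.contDiff.comp goodP_smooth
  obtain ⟨C, hC, hC2⟩ := (𝓕 (h3.toSchwartzMap h4)).decay 2 0
  refine ⟨C, hC, fun ξ hξ => ?_⟩
  have := hC2 ξ
  rw [norm_iteratedFDeriv_zero, Real.norm_eq_abs, sq_abs] at this
  rw [le_div_iff₀ (by positivity), mul_comm, ← fourier_eq_hat]
  exact this

lemma goodP_sum (n : ℕ) (t : ℝ) :
    ∑ j ∈ range n, goodP (t - j) = smoothTransition (t + 1) - smoothTransition (t + 1 - n) := by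
  induction n with
  | zero => simp
  | succ n ih =>
    rw [sum_range_succ, ih, goodP, show t - n + 1 = t + 1 - n by ring,
      show t + 1 - ((n + 1 : ℕ) : ℝ) = t - n by push_cast; ring]
    ring

lemma goodP_int {c : ℝ} (hc : 0 < c) (a ξ : ℝ) :
    Integrable fun v => ((goodP (c * v - a) : ℝ) : ℂ) * ee (-(ξ * v)) := by
  refine Continuous.integrable_of_hasCompactSupport ?_ ?_
  · have h1 := goodP_smooth.continuous
    have h2 := continuous_ee
    fun_prop
  · refine HasCompactSupport.intro (isCompact_Icc (a := (a - 1) / c) (b := (a + 2) / c))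
      fun u hu => ?_
    by_contra h0
    obtain ⟨h1, h2⟩ := goodP_supp (c * u - a) fun e => h0 (by simp [e])
    exact hu ⟨by rw [div_le_iff₀ hc]; linarith, by rw [le_div_iff₀ hc]; linarith⟩

lemma goodP_hat {c : ℝ} (hc : 0 < c) (a ξ : ℝ) :
    ‖∫ v, ((goodP (c * v - a) : ℝ) : ℂ) * ee (-(ξ * v))‖ = c⁻¹ * ‖hat goodP (ξ / c)‖ := by
  have h1 := Measure.integral_comp_mul_left
    (fun u => ((goodP (u - a) : ℝ) : ℂ) * ee (-(ξ / c * (u - a))) * ee (-(ξ / c * a))) c
  rw [integral_sub_right_eq_self
    (fun u => ((goodP u : ℝ) : ℂ) * ee (-(ξ / c * u)) * ee (-(ξ / c * a))) a] at h1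
  have h2 : ∀ v, ((goodP (c * v - a) : ℝ) : ℂ) * ee (-(ξ * v)) =
      ((goodP (c * v - a) : ℝ) : ℂ) * ee (-(ξ / c * (c * v - a))) * ee (-(ξ / c * a)) := fun v => by
    rw [mul_assoc, ← ee_add]
    congr 2
    field_simp
    ring
  simp only [h2]
  rw [h1, integral_mul_const, norm_smul, norm_mul, norm_ee, mul_one, Real.norm_eq_abs, abs_abs,
    abs_of_pos (inv_pos.2 hc), hat]

theorem pGood : T_Good := by
  obtain ⟨C, hC, hd⟩ := goodP_decay
  refine ⟨2 * C + 1, by linarith, fun J hJ => ?_⟩
  have hJ' : (2 : ℝ) ≤ J := by exact_mod_cast hJ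
  have h0 : (0 : ℝ) < J := by linarith
  have hs : ∀ v : ℝ, ∑ j ∈ range (J + 1), goodP (J * v - j) =
      smoothTransition (J * v + 1) - smoothTransition (J * v - J) := fun v => by
    rw [goodP_sum]
    congr 2
    push_cast
    ring
  have hi : (1 : ℝ) / J ≤ 1 / 2 := one_div_le_one_div_of_le (by norm_num) hJ'
  have h1 : ∀ v : ℝ, smoothTransition (J * v + 1) - smoothTransition (J * v - J) ≠ 0 →
      -(1 / J) ≤ v ∧ v ≤ 1 + 1 / J := fun v h => by
    have e : (J : ℝ) * (1 / J) = 1 := by field_simp
    refine ⟨not_lt.1 fun h1 => h ?_, not_lt.1 fun h1 => h ?_⟩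
    · have := mul_lt_mul_of_pos_left h1 h0
      rw [smoothTransition.zero_of_nonpos (by linarith),
        smoothTransition.zero_of_nonpos (by linarith), sub_self]
    · have := mul_lt_mul_of_pos_left h1 h0
      rw [smoothTransition.one_of_one_le (by linarith),
        smoothTransition.one_of_one_le (by linarith), sub_self]
  have h2 : ∀ v : ℝ, 0 ≤ smoothTransition (J * v + 1) - smoothTransition (J * v - J) := fun v =>
    sub_nonneg.2 (smoothTransition.monotone (by linarith))
  have h3 : ∫ v : ℝ, (smoothTransition (J * v + 1) - smoothTransition (J * v - J)) ≤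
      1 + 2 / (J : ℝ) := by
    have hp : (0 : ℝ) < 1 / J := by positivity
    refine (integral_mono_of_nonneg (g := (Set.Icc (-(1 / J : ℝ)) (1 + 1 / J)).indicator 1)
      (.of_forall h2) ((integrable_indicator_iff measurableSet_Icc).2
        (integrableOn_const measure_Icc_lt_top.ne)) (.of_forall fun v => ?_)).trans (le_of_eq ?_)
    · by_cases hv : v ∈ Set.Icc (-(1 / J : ℝ)) (1 + 1 / J)
      · rw [Set.indicator_of_mem hv]
        have := smoothTransition.le_one (J * v + 1)
        have := smoothTransition.nonneg (J * v - J)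
        simp only [Pi.one_apply]
        linarith
      · rw [Set.indicator_of_notMem hv]
        exact le_of_eq (by_contra fun e => hv (h1 v e))
    · rw [integral_indicator_one measurableSet_Icc, Real.volume_real_Icc_of_le (by linarith)]
      ring
  refine ⟨fun v => smoothTransition (J * v + 1) - smoothTransition (J * v - J),
    ⟨?_, fun v hv => ?_, h2, h3.trans ?_, by positivity, fun ξ hξ => ?_⟩, fun v a b => ?_, h3⟩
  · exact (smoothTransition.contDiff.comp ((contDiff_const.mul contDiff_id).add contDiff_const)).sub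
      (smoothTransition.contDiff.comp ((contDiff_const.mul contDiff_id).sub contDiff_const))
  · obtain ⟨a, b⟩ := h1 v hv
    constructor <;> linarith
  · rw [show (2 : ℝ) / J = 2 * (1 / J) by ring]
    linarith
  · rw [hat]
    simp only [← hs, Complex.ofReal_sum, sum_mul]
    rw [integral_finsetSum _ fun j _ => goodP_int h0 _ ξ]
    refine (norm_sum_le_of_le _ (n := fun _ => C * J / ξ ^ 2) fun j _ => ?_).trans ?_
    · rw [goodP_hat h0]
      refine (mul_le_mul_of_nonneg_left (hd _ (div_ne_zero hξ h0.ne')) (by positivity)).trans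
        (le_of_eq ?_)
      field_simp
    · rw [sum_const, card_range, nsmul_eq_mul, ← mul_div_assoc]
      push_cast
      refine div_le_div_of_nonneg_right ?_ (sq_nonneg _)
      nlinarith [mul_pos hC h0, mul_nonneg (mul_pos hC h0).le (sub_nonneg.2 hJ')]
  · show smoothTransition _ - smoothTransition _ = 1
    rw [smoothTransition.one_of_one_le (by nlinarith),
      smoothTransition.zero_of_nonpos (by nlinarith), sub_zero]

end Pool.Agent.P.MP_26a8c3_nt.U
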