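import Pool.Agent.P.MP_26a8c3_nt.U.St

/-! The sieve identity for an arbitrary support, and the total weights. -/

namespace Pool.Agent.P.MP_26a8c3_nt.U

open Finset Pool.Agent.P.MP_26a8c3_nt.Hyb

lemma id_sq (D : Finset (Finset ℕ)) (hD : ∀ S ∈ D, ∀ p ∈ S, p.Prime) (n : ℤ) :
    FF D n ^ 2 = ∑ S ∈ D, ∑ S' ∈ D, gg S * gg S' * ∑ U ∈ S.powerset, ∑ U' ∈ S'.powerset,
      (-1) ^ U.card * (-1) ^ U'.card * ((dd U : ℝ) * dd U') * dv (dd (U ∪ U')) n := by
  rw [sq, FF, sum_mul_sum]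
  refine sum_congr rfl fun S hS => sum_congr rfl fun S' hS' => ?_
  rw [mul_mul_mul_comm, psi, psi, sum_mul_sum]
  congr 1
  refine sum_congr rfl fun U hU => sum_congr rfl fun U' hU' => ?_
  rw [← dv_union (fun p hp => hD S hS p (mem_powerset.1 hU hp))
    (fun p hp => hD S' hS' p (mem_powerset.1 hU' hp))]
  ring

lemma id_orth {S S' : Finset ℕ} (hS : ∀ p ∈ S, p.Prime) (hS' : ∀ p ∈ S', p.Prime) :
    gg S * gg S' * ∑ U ∈ S.powerset, ∑ U' ∈ S'.powerset,
      (-1) ^ U.card * (-1) ^ U'.card * ((dd U : ℝ) * dd U') * (dd (U ∪ U') : ℝ)⁻¹ =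
      if S = S' then gg S else 0 := by
  have h2 : ∑ U ∈ S.powerset, ∑ U' ∈ S'.powerset,
      (-1) ^ U.card * (-1) ^ U'.card * ((dd U : ℝ) * dd U') * (dd (U ∪ U') : ℝ)⁻¹ =
      if S = S' then ∏ p ∈ S, ((p : ℝ) - 1) else 0 := by
    rw [← orth]
    refine sum_congr rfl fun U hU => sum_congr rfl fun U' hU' => ?_
    have h3 : (0 : ℝ) < dd (U ∪ U') := by
      exact_mod_cast dd_pos (forall_mem_union.2 ⟨fun p hp => hS p (mem_powerset.1 hU hp),
        fun p hp => hS' p (mem_powerset.1 hU' hp)⟩)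
    have h4 : (dd U : ℝ) * dd U' = dd (U ∪ U') * ∏ p ∈ U ∩ U', (p : ℝ) := by
      rw [← Nat.cast_mul, ← dd_union, Nat.cast_mul, dd, dd, Nat.cast_prod _ (U ∩ U')]
    rw [h4]; field_simp
  rw [h2]
  split_ifs with h
  · subst h
    rw [mul_assoc, gg, ← prod_mul_distrib, prod_eq_one (s := S)
      (f := fun p => ((p : ℝ) - 1)⁻¹ * ((p : ℝ) - 1)) fun p hp => inv_mul_cancel₀
        (sub_pos.2 (by exact_mod_cast (hS p hp).one_lt)).ne', mul_one]
  · simp

lemma id_one (g : ℝ → ℝ) (k : ℕ) (l : ZMod k) (x₀ y : ℝ) (D : Finset (Finset ℕ))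
    (hD : ∀ S ∈ D, ∀ p ∈ S, p.Prime) :
    ∑ n ∈ win k l x₀ y, g ((n - x₀) / y) * FF D n ^ 2 =
      (∫ v, g v) * (y / k) * ∑ S ∈ D, gg S + RR (rem g k l x₀ y) D D := by
  have h1 : ∑ n ∈ win k l x₀ y, g ((n - x₀) / y) * FF D n ^ 2 = RR (cnt g k l x₀ y) D D := by
    simp only [id_sq D hD, RR, rho, cnt, mul_sum]
    rw [sum_comm]
    refine sum_congr rfl fun S _ => ?_
    rw [sum_comm]
    refine sum_congr rfl fun S' _ => ?_
    rw [sum_comm]
    refine sum_congr rfl fun U _ => ?_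
    rw [sum_comm]
    exact sum_congr rfl fun U' _ => sum_congr rfl fun n _ => by ring
  have h2 : ∑ S ∈ D, gg S = ∑ S ∈ D, ∑ S' ∈ D, if S = S' then gg S else 0 :=
    sum_congr rfl fun S hS => by rw [sum_ite_eq, if_pos hS]
  rw [h1, h2, mul_sum, RR, RR, ← sum_add_distrib]
  refine sum_congr rfl fun S hS => ?_
  rw [mul_sum, ← sum_add_distrib]
  refine sum_congr rfl fun S' hS' => ?_
  rw [← id_orth (hD S hS) (hD S' hS'), mul_left_comm, ← mul_add, rho, rho]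
  congr 1
  rw [mul_sum, ← sum_add_distrib]
  refine sum_congr rfl fun U _ => ?_
  rw [mul_sum, ← sum_add_distrib]
  refine sum_congr rfl fun U' _ => ?_
  rw [rem]
  ring

lemma id_two (W : ℕ) (Z : ℝ) (D : Finset (Finset ℕ)) (hD : D ⊆ LL W Z) (p : ℕ) (hp : p.Prime)
    (hz : Z < p) : FF D p = ∑ S ∈ D, gg S := by
  refine sum_congr rfl fun U hU => ?_
  rw [psi, sum_eq_single ∅]
  · simp [dd, dv]
  · intro S hS hne
    obtain ⟨a, b⟩ := mem_LL.1 (LL_down (hD hU) (mem_powerset.1 hS))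
    rw [dv, if_neg, mul_zero]
    intro hd
    rcases (Nat.dvd_prime hp).1 (Int.natCast_dvd_natCast.1 hd) with h | h
    · obtain ⟨q, hq⟩ := nonempty_iff_ne_empty.2 hne
      have : q ∣ dd S := dvd_prod_of_mem _ hq
      exact (a q hq).1.one_lt.ne' (Nat.dvd_one.1 (h ▸ this))
    · rw [h] at b; linarith
  · intro h; exact absurd (empty_mem_powerset U) h

lemma id_wt_eq (S : Finset ℕ) : wt S = ∏ p ∈ S, ((p : ℝ) - 1)⁻¹ * (1 + p) := by
  rw [prod_mul_distrib, prod_one_add, wt, gg]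
  simp only [dd, Nat.cast_prod]

lemma id_wt_le (S : Finset ℕ) (hS : ∀ p ∈ S, 2 ≤ p) :
    wt S ≤ ((S.card : ℝ) + 1) * (S.card + 2) / 2 := by
  rw [id_wt_eq]
  induction S using Finset.induction_on_max with
  | empty => simp
  | insert a s ha ih =>
    have h1 : a ∉ s := fun h => lt_irrefl _ (ha a h)
    have h2 : s.card ≤ a - 2 := by
      rw [← Nat.card_Ico]
      exact card_le_card fun p hp => mem_Ico.2 ⟨hS p (mem_insert_of_mem hp), ha p hp⟩
    have h3 := hS a (mem_insert_self _ _)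
    have h4 : (s.card : ℝ) + 2 ≤ a := by exact_mod_cast (show s.card + 2 ≤ a by omega)
    have h0 : (0 : ℝ) ≤ s.card := Nat.cast_nonneg _
    have h5 : ((a : ℝ) - 1)⁻¹ * (1 + a) ≤ (s.card + 3) / (s.card + 1) := by
      rw [inv_mul_eq_div, div_le_div_iff₀ (by linarith) (by linarith)]
      nlinarith
    rw [prod_insert h1, card_insert_of_notMem h1]
    refine (mul_le_mul h5 (ih fun p hp => hS p (mem_insert_of_mem hp))
      (prod_nonneg fun p hp => ?_) (by positivity)).trans_eq ?_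
    · have : (2 : ℝ) ≤ p := by exact_mod_cast hS p (mem_insert_of_mem hp)
      exact mul_nonneg (inv_nonneg.2 (by linarith)) (by linarith)
    · push_cast
      field_simp
      ring

lemma id_card (W : ℕ) {Y : ℝ} (hY : 0 ≤ Y) : ((LL W Y).card : ℝ) ≤ Y := by
  have h1 : (LL W Y).card ≤ (Icc 1 ⌊Y⌋₊).card := by
    refine card_le_card_of_injOn dd (fun S hS => ?_) fun S hS T hT e => ?_
    · obtain ⟨a, b⟩ := mem_LL.1 hS
      exact mem_coe.2 (mem_Icc.2 ⟨dd_pos fun p hp => (a p hp).1, Nat.le_floor b⟩)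
    · rw [← Nat.primeFactors_prod (s := S) fun p hp => ((mem_LL.1 hS).1 p hp).1,
        ← Nat.primeFactors_prod (s := T) fun p hp => ((mem_LL.1 hT).1 p hp).1]
      exact congrArg _ e
  rw [Nat.card_Icc, Nat.add_sub_cancel] at h1
  exact le_trans (by exact_mod_cast h1) (Nat.floor_le hY)

lemma id_three (W : ℕ) (Y Z : ℝ) (hY : 0 ≤ Y) (hYZ : Y ≤ Z) (_hZ : 1 ≤ Z) :
    ∑ S ∈ LL W Y, wt S ≤ Y * (2 + 2 * Real.log Z) ^ 2 := by
  refine (sum_le_card_nsmul _ _ ((2 + 2 * Real.log Z) ^ 2) fun S hS => ?_).trans ?_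
  · obtain ⟨a, b⟩ := mem_LL.1 hS
    have h1 : 2 ^ S.card ≤ dd S := by
      rw [← prod_const]
      exact prod_le_prod' fun p hp => (a p hp).1.two_le
    have h2 : (2 : ℝ) ^ S.card ≤ Z := le_trans (by exact_mod_cast h1) (b.trans hYZ)
    have h3 := Real.log_le_log (by positivity) h2
    rw [Real.log_pow] at h3
    have h0 : (0 : ℝ) ≤ S.card := Nat.cast_nonneg _
    have h4 : (S.card : ℝ) + 2 ≤ 2 + 2 * Real.log Z := by nlinarith [Real.log_two_gt_d9]
    refine (id_wt_le S fun p hp => (a p hp).1.two_le).trans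
      (le_trans ?_ (pow_le_pow_left₀ (by positivity) h4 2))
    nlinarith
  · rw [nsmul_eq_mul]
    exact mul_le_mul_of_nonneg_right (id_card W hY) (by positivity)

lemma id_wt_nonneg {S : Finset ℕ} (hS : ∀ p ∈ S, p.Prime) : 0 ≤ wt S :=
  mul_nonneg (gg_pos hS).le (by positivity)

lemma id_four (R : ℕ → ℝ) (k : ℕ) (c z Λ : ℝ) (D : Finset (Finset ℕ)) (hc : 0 ≤ c) (hz : 0 ≤ z)
    (hR : ∀ d : ℕ, d ≠ 0 → Nat.Coprime d k → |R d| ≤ c * d) (hD : D ⊆ LL k z)
    (hw : ∑ S ∈ LL k z, wt S ≤ z * Λ) : |RR R D D| ≤ c * z ^ 2 * (z * Λ) ^ 2 := by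
  have w0 : ∀ S ∈ LL k z, 0 ≤ wt S := fun S hS =>
    id_wt_nonneg fun p hp => ((mem_LL.1 hS).1 p hp).1
  have h1 : ∑ S ∈ D, wt S ≤ z * Λ :=
    (sum_le_sum_of_subset_of_nonneg hD fun S hS _ => w0 S hS).trans hw
  have h2 : |RR R D D| ≤ c * z ^ 2 * (∑ S ∈ D, wt S) ^ 2 := by
    rw [sq (∑ S ∈ D, wt S), sum_mul_sum, mul_sum]
    refine (abs_sum_le_sum_abs _ _).trans (sum_le_sum fun S hS => ?_)
    rw [mul_sum]
    refine (abs_sum_le_sum_abs _ _).trans (sum_le_sum fun S' hS' => ?_)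
    have a := gg_pos' (hD hS)
    have b := gg_pos' (hD hS')
    rw [abs_mul, abs_of_pos (mul_pos a b), wt, wt, mul_mul_mul_comm (gg S),
      mul_left_comm (c * z ^ 2)]
    refine mul_le_mul_of_nonneg_left ?_ (mul_pos a b).le
    rw [sum_mul_sum, mul_sum]
    refine (abs_sum_le_sum_abs _ _).trans (sum_le_sum fun U hU => ?_)
    rw [mul_sum]
    refine (abs_sum_le_sum_abs _ _).trans (sum_le_sum fun U' hU' => ?_)
    obtain ⟨a1, a2⟩ := mem_LL.1 (LL_down (hD hS) (mem_powerset.1 hU))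
    obtain ⟨b1, b2⟩ := mem_LL.1 (LL_down (hD hS') (mem_powerset.1 hU'))
    have h3 : ∀ p ∈ U ∪ U', p.Prime ∧ Nat.Coprime p k := forall_mem_union.2 ⟨a1, b1⟩
    have h4 : dd (U ∪ U') ≤ dd U * dd U' := by
      rw [← dd_union]
      exact Nat.le_mul_of_pos_right _ (dd_pos fun p hp => (a1 p (mem_inter.1 hp).1).1)
    have h5 : (dd (U ∪ U') : ℝ) ≤ z ^ 2 :=
      calc (dd (U ∪ U') : ℝ) ≤ dd U * dd U' := by exact_mod_cast h4
        _ ≤ z * z := mul_le_mul a2 b2 (by positivity) hz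
        _ = _ := (sq z).symm
    have h6 := (hR _ (dd_pos fun p hp => (h3 p hp).1).ne'
      (Nat.Coprime.prod_left fun p hp => (h3 p hp).2)).trans (mul_le_mul_of_nonneg_left h5 hc)
    simp only [abs_mul, abs_pow, abs_neg, abs_one, one_pow, Nat.abs_cast, one_mul]
    rw [mul_comm]
    exact mul_le_mul_of_nonneg_right h6 (by positivity)
  refine h2.trans (mul_le_mul_of_nonneg_left ?_ (by positivity))
  exact pow_le_pow_left₀ (sum_nonneg fun S hS => w0 S (hD hS)) h1 2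

theorem pId : T_Id := ⟨id_one, id_two, id_three, id_four⟩

end Pool.Agent.P.MP_26a8c3_nt.U
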