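import Pool.Agent.P.MP_26a8c3_nt.U.St

/-! The special primes. -/

namespace Pool.Agent.P.MP_26a8c3_nt.U

open Finset Pool.Agent.P.MP_26a8c3_nt.Hyb

open Classical in
/-- The block of a number. -/
noncomputable def prB (B : ℝ) (p : ℕ) : ℕ :=
  if h : ∃ i : ℕ, B ^ i < p ∧ (p : ℝ) ≤ B ^ i * B then h.choose else 0

lemma pr_b_eq {B : ℝ} (hB : 1 ≤ B) {p i : ℕ} (h1 : B ^ i < p) (h2 : (p : ℝ) ≤ B ^ i * B) :
    prB B p = i := by
  have h : ∃ i : ℕ, B ^ i < p ∧ (p : ℝ) ≤ B ^ i * B := ⟨i, h1, h2⟩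
  rw [prB, dif_pos h]
  obtain ⟨a, b⟩ := h.choose_spec
  rw [← pow_succ] at b h2
  by_contra hne
  rcases lt_or_gt_of_ne hne with c | c
  · linarith [pow_le_pow_right₀ hB (Nat.add_one_le_iff.2 c)]
  · linarith [pow_le_pow_right₀ hB (Nat.add_one_le_iff.2 c)]

lemma pr_J {B : ℝ} (hB : 320000 ≤ B) :
    ∃ J : ℕ, (8 : ℝ) ^ J ≤ B ∧ Real.log B / 4 ≤ J ∧ 0 < Real.log B := by
  have he := Real.exp_one_lt_d9
  have he' := Real.exp_one_gt_d9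
  have h12 : 12 ≤ Real.log B := by
    rw [Real.le_log_iff_exp_le (by linarith)]
    have : Real.exp 12 = Real.exp 1 ^ 12 := by rw [← Real.exp_nat_mul]; norm_num
    rw [this]
    calc Real.exp 1 ^ 12 ≤ 2.7182818286 ^ 12 := by gcongr
      _ ≤ B := le_trans (by norm_num) hB
  refine ⟨⌊Real.log B / 3⌋₊, ?_, by linarith [Nat.lt_floor_add_one (Real.log B / 3)], by linarith⟩
  have h8 : (8 : ℝ) ≤ Real.exp 3 := by
    have : Real.exp 3 = Real.exp 1 ^ 3 := by rw [← Real.exp_nat_mul]; norm_num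
    rw [this]
    calc (8 : ℝ) = 2 ^ 3 := by norm_num
      _ ≤ Real.exp 1 ^ 3 := by gcongr; linarith
  have hf : (⌊Real.log B / 3⌋₊ : ℝ) ≤ Real.log B / 3 := Nat.floor_le (by linarith)
  calc (8 : ℝ) ^ ⌊Real.log B / 3⌋₊ ≤ Real.exp 3 ^ ⌊Real.log B / 3⌋₊ := by gcongr
    _ = Real.exp (⌊Real.log B / 3⌋₊ * 3) := (Real.exp_nat_mul _ _).symm
    _ ≤ Real.exp (Real.log B) := Real.exp_le_exp.2 (by linarith)
    _ = B := Real.exp_log (by linarith)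

lemma pr_pick {n k : ℕ} {B a : ℝ} (hn : 1 ≤ n) (hk : k ≠ 0) (hB : 320000 ≤ B) (hnB : (n : ℝ) ≤ B)
    (hkB : (k : ℝ) ≤ B ^ (16384 * n ^ 3)) (I : Finset ℕ)
    (hI : ∀ i ∈ I, 4096 * n ^ 2 ≤ i ∧ i < 16384 * n ^ 2) (ha : 1 / 1000 ≤ a)
    (h : (a + 1 / 1000) * (262144 * (n : ℝ) ^ 2) ≤ I.card) :
    ∃ PP : Finset ℕ, (∀ p ∈ PP, p.Prime ∧ Nat.Coprime p k ∧ B ^ prB B p ≤ p ∧
      (p : ℝ) ≤ B ^ prB B p * B ∧ prB B p ∈ I) ∧
      a ≤ ∑ p ∈ PP, (p : ℝ)⁻¹ ∧ ∑ p ∈ PP, (p : ℝ)⁻¹ ≤ 2 * a := by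
  obtain ⟨J, hJ, hJ', hl⟩ := pr_J hB
  have hB1 : 1 ≤ B := by linarith
  have hn' : (1 : ℝ) ≤ n := by exact_mod_cast hn
  have hn2 : 1 ≤ n ^ 2 := Nat.one_le_pow _ _ hn
  set bl : ℕ → Finset ℕ := fun i => (Ioc ⌊B ^ i⌋₊ ⌊B ^ i * 8 ^ J⌋₊).filter Nat.Prime with hbl
  have hb1 : ∀ i, ∀ p ∈ bl i, p.Prime ∧ B ^ i < p ∧ (p : ℝ) ≤ B ^ i * B := fun i p hp => by
    obtain ⟨a1, a2⟩ := mem_filter.1 hp
    obtain ⟨b1, b2⟩ := mem_Ioc.1 a1
    exact ⟨a2, (Nat.floor_lt (by positivity)).1 b1,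
      ((Nat.cast_le.2 b2).trans (Nat.floor_le (by positivity))).trans (by gcongr)⟩
  have hb2 : ∀ i, ∀ p ∈ bl i, prB B p = i := fun i p hp =>
    pr_b_eq hB1 (hb1 i p hp).2.1 (hb1 i p hp).2.2
  have hb3 : ∀ i ∈ I, 1 / (262144 * (n : ℝ) ^ 2) ≤ ∑ p ∈ bl i, (p : ℝ)⁻¹ := fun i hi => by
    obtain ⟨i1, i2⟩ := hI i hi
    have c1 : B ≤ B ^ i := le_self_pow₀ hB1 (by omega)
    refine le_trans ?_ (sum_block (hB.trans c1) J (L := 16384 * (n : ℝ) ^ 2 * Real.log B) ?_)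
    · rw [div_le_div_iff₀ (by positivity) (by positivity)]
      nlinarith [mul_le_mul_of_nonneg_left hJ' (by positivity : (0 : ℝ) ≤ (n : ℝ) ^ 2)]
    · have c2 : B ^ i * 8 ^ J ≤ B ^ (16384 * n ^ 2) :=
        calc B ^ i * 8 ^ J ≤ B ^ i * B := by gcongr
          _ = B ^ (i + 1) := (pow_succ _ _).symm
          _ ≤ _ := pow_le_pow_right₀ hB1 i2
      refine (Real.log_le_log (by positivity) c2).trans (le_of_eq ?_)
      rw [Real.log_pow]; push_cast; ring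
  set S := I.biUnion bl with hS
  have h1 : a + 1 / 1000 ≤ ∑ p ∈ S, (p : ℝ)⁻¹ := by
    rw [hS, sum_biUnion fun i _ j _ hij => disjoint_left.2 fun p hp hq =>
      hij ((hb2 i p hp).symm.trans (hb2 j p hq))]
    refine le_trans ?_ (card_nsmul_le_sum I _ _ hb3)
    rw [nsmul_eq_mul, mul_one_div, le_div_iff₀ (by positivity)]
    exact h
  set P := B ^ (4096 * n ^ 2) with hP
  have hP2 : B ^ 2 ≤ P := pow_le_pow_right₀ hB1 (by omega)
  have hP0 : 0 < P := by positivity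
  have hS1 : ∀ p ∈ S, p.Prime ∧ P ≤ p ∧ B ^ prB B p ≤ p ∧ (p : ℝ) ≤ B ^ prB B p * B ∧
      prB B p ∈ I := fun p hp => by
    obtain ⟨i, hi, hpi⟩ := mem_biUnion.1 hp
    obtain ⟨a1, a2, a3⟩ := hb1 i p hpi
    rw [hb2 i p hpi]
    exact ⟨a1, (pow_le_pow_right₀ hB1 (hI i hi).1).trans a2.le, a2.le, a3, hi⟩
  have h2 : (S.filter (· ∣ k)).card ≤ 4 * n := by
    have b1 : dd (S.filter (· ∣ k)) ∣ k := prod_primes_dvd _
      (fun p hp => (hS1 p (mem_filter.1 hp).1).1.prime) fun p hp => (mem_filter.1 hp).2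
    have b2 : P ^ (S.filter (· ∣ k)).card ≤ dd (S.filter (· ∣ k)) := by
      rw [dd, Nat.cast_prod, ← prod_const]
      exact prod_le_prod (fun _ _ => hP0.le) fun p hp => (hS1 p (mem_filter.1 hp).1).2.1
    have b3 : (k : ℝ) ≤ P ^ (4 * n) := by
      rw [hP, ← pow_mul]; exact hkB.trans (le_of_eq (by congr 1; ring))
    exact (pow_le_pow_iff_right₀ (by nlinarith)).1
      ((b2.trans (Nat.cast_le.2 (Nat.le_of_dvd (Nat.pos_of_ne_zero hk) b1))).trans b3)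
  have hPi : P⁻¹ ≤ 1 / 1000 := by
    rw [← one_div]; exact one_div_le_one_div_of_le (by norm_num) (by nlinarith)
  have h3 : ∑ p ∈ S.filter (· ∣ k), (p : ℝ)⁻¹ ≤ 1 / 1000 := by
    refine (sum_le_card_nsmul _ _ P⁻¹ fun p hp =>
      inv_anti₀ hP0 (hS1 p (mem_filter.1 hp).1).2.1).trans ?_
    have c : ((S.filter (· ∣ k)).card : ℝ) ≤ 4 * n := by exact_mod_cast h2
    rw [nsmul_eq_mul, ← div_eq_mul_inv, div_le_div_iff₀ hP0 (by norm_num)]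
    nlinarith
  rw [← sum_filter_add_sum_filter_not S (· ∣ k)] at h1
  obtain ⟨PP, c1, c2⟩ := greedy (S.filter fun p => ¬ p ∣ k) (fun p => (p : ℝ)⁻¹)
    (a := a) (by linarith)
    (fun p hp => ((inv_anti₀ hP0 (hS1 p (mem_filter.1 hp).1).2.1).trans hPi).trans ha) (by linarith)
  refine ⟨PP, fun p hp => ?_, c2⟩
  obtain ⟨d1, -, d2⟩ := hS1 p (mem_filter.1 (c1 hp)).1
  exact ⟨d1, (Nat.Prime.coprime_iff_not_dvd d1).2 (mem_filter.1 (c1 hp)).2, d2⟩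

lemma pr_idx {n K j : ℕ} (hn : 1 ≤ n) (h1 : n ≤ K) (h2 : K < 2 * n) (hj : j < 1000 * n) {i : ℕ}
    (hi : i = (8192 * n ^ 3 + 1024 * n ^ 2) / K + 1 + j) :
    4096 * n ^ 2 ≤ i ∧ i < 12288 * n ^ 2 ∧ 8192 * n ^ 3 + 1024 * n ^ 2 ≤ i * K ∧
      (i + 1) * (K - 1) + 1024 * n ^ 2 ≤ 8192 * n ^ 3 := by
  set A := 8192 * n ^ 3 + 1024 * n ^ 2 with hA
  have hK : 0 < K := by omega
  have a1 : A / K * K ≤ A := Nat.div_mul_le_self _ _
  have a2 : A < A / K * K + K := Nat.lt_div_mul_add hK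
  have a3 : 4096 * n ^ 2 ≤ A / K := (Nat.le_div_iff_mul_le hK).2 (by nlinarith)
  have a4 : A / K ≤ 8192 * n ^ 2 + 1024 * n :=
    (Nat.div_le_div_left h1 hn).trans (Nat.div_le_of_le_mul (le_of_eq (by rw [hA]; ring)))
  generalize A / K = q at *
  obtain ⟨K, rfl⟩ : ∃ K', K = K' + 1 := ⟨K - 1, by omega⟩
  subst hi
  refine ⟨by omega, by nlinarith, by nlinarith, ?_⟩
  have a5 : (2 + j) * K ≤ (1000 * n + 1) * K := Nat.mul_le_mul_right _ (by omega)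
  have a6 : (1000 * n + 1) * (K + 2) ≤ (1000 * n + 1) * (2 * n) := Nat.mul_le_mul_left _ (by omega)
  rw [Nat.add_sub_cancel]
  nlinarith

theorem pPr : T_Pr := by
  intro n k B hn hk hB hnB hkB
  set f : ℕ × ℕ → ℕ := fun x => (8192 * n ^ 3 + 1024 * n ^ 2) / x.1 + 1 + x.2 with hf
  set D := Ico n (2 * n) ×ˢ range (1000 * n) with hD
  have hx : ∀ x ∈ D, 4096 * n ^ 2 ≤ f x ∧ f x < 12288 * n ^ 2 ∧
      8192 * n ^ 3 + 1024 * n ^ 2 ≤ f x * x.1 ∧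
      (f x + 1) * (x.1 - 1) + 1024 * n ^ 2 ≤ 8192 * n ^ 3 := fun x hx => by
    obtain ⟨a, b⟩ := mem_product.1 hx
    exact pr_idx hn (mem_Ico.1 a).1 (mem_Ico.1 a).2 (mem_range.1 b) rfl
  have hn2 : 1 ≤ n ^ 2 := Nat.one_le_pow _ _ hn
  have key : ∀ x ∈ D, ∀ y ∈ D, f x = f y → ¬ x.1 < y.1 := fun x h1 y h2 e hlt => by
    have a := (hx x h1).2.2.1
    have b := (hx y h2).2.2.2
    have c : (f y + 1) * x.1 ≤ (f y + 1) * (y.1 - 1) := Nat.mul_le_mul_left _ (by omega)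
    rw [e] at a
    nlinarith
  have hc : (D.image f).card = 1000 * n ^ 2 := by
    rw [card_image_of_injOn fun x h1 y h2 e => ?_, hD, card_product, Nat.card_Ico, card_range,
      show 2 * n - n = n by omega]
    · ring
    · have e1 : x.1 = y.1 := le_antisymm (not_lt.1 (key y h2 x h1 e.symm)) (not_lt.1 (key x h1 y h2 e))
      refine Prod.ext e1 ?_
      simp only [hf, e1] at e
      omega
  have hn' : (0 : ℝ) ≤ (n : ℝ) ^ 2 := by positivity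
  obtain ⟨P₁, p1, p2, p3⟩ := pr_pick (a := 1 / 400) hn hk hB hnB hkB (D.image f) (fun i hi => by
    obtain ⟨x, h, rfl⟩ := mem_image.1 hi
    exact ⟨(hx x h).1, by have := (hx x h).2.1; omega⟩) (by norm_num) (by
      rw [hc]; push_cast; nlinarith)
  obtain ⟨P₂, q1, q2, q3⟩ := pr_pick (a := 1 / 100) hn hk hB hnB hkB
    (Ico (12288 * n ^ 2) (16384 * n ^ 2)) (fun i hi => by have := mem_Ico.1 hi; omega) (by norm_num)
    (by rw [Nat.card_Ico, show 16384 * n ^ 2 - 12288 * n ^ 2 = 4096 * n ^ 2 by omega]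
        push_cast; nlinarith)
  refine ⟨P₁, P₂, prB B, disjoint_left.2 fun p h1 h2 => ?_, fun p hp => ?_, fun p hp => ?_, p2,
    by linarith, q2, by linarith⟩
  · obtain ⟨x, h, e⟩ := mem_image.1 (p1 p h1).2.2.2.2
    have := (hx x h).2.1
    have := (mem_Ico.1 (q1 p h2).2.2.2.2).1
    omega
  · rcases mem_union.1 hp with h | h
    · obtain ⟨a, b, c, d, e⟩ := p1 p h
      obtain ⟨x, h, e⟩ := mem_image.1 e
      have := hx x h
      exact ⟨a, b, c, d, by omega, by omega⟩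
    · obtain ⟨a, b, c, d, e⟩ := q1 p h
      have := mem_Ico.1 e
      exact ⟨a, b, c, d, by omega, by omega⟩
  · obtain ⟨x, h, e⟩ := mem_image.1 (p1 p hp).2.2.2.2
    have a := mem_Ico.1 (mem_product.1 h).1
    exact ⟨x.1, by omega, by omega, e ▸ (hx x h).2.2.1, e ▸ (hx x h).2.2.2⟩

end Pool.Agent.P.MP_26a8c3_nt.U
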