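import Pool.Agent.P.MP_26a8c3_nt.U.St

/-! The remainder of the extra support against any family. -/

namespace Pool.Agent.P.MP_26a8c3_nt.U

open Finset Pool.Agent.P.MP_26a8c3_nt.Hyb

namespace REP

/-- pairs of a set of the family and a subset -/
def pw (D : Finset (Finset ℕ)) : Finset (Σ _ : Finset ℕ, Finset ℕ) := D.sigma powerset

/-- the coefficient of a subset -/
noncomputable def cf (S U : Finset ℕ) : ℝ := gg S * ((-1) ^ U.card * dd U)

/-- the coefficient of a special prime -/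
noncomputable def be (S : Finset ℕ) (p : ℕ) : ℝ := if p ∈ S then 0 else p * ((p : ℝ) - 1)⁻¹

lemma mem_pw {D : Finset (Finset ℕ)} {x : Σ _ : Finset ℕ, Finset ℕ} :
    x ∈ pw D ↔ x.1 ∈ D ∧ x.2 ⊆ x.1 := by
  unfold pw
  rw [mem_sigma, mem_powerset]

lemma be_le (S : Finset ℕ) {p : ℕ} (hp : p.Prime) : |be S p| ≤ 2 := by
  have h : (2 : ℝ) ≤ p := by exact_mod_cast hp.two_le
  unfold be
  split_ifs
  · simp
  · rw [abs_of_nonneg (mul_nonneg (by linarith) (inv_nonneg.2 (by linarith))), ← div_eq_mul_inv,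
      div_le_iff₀ (by linarith)]
    linarith

lemma abs_cf {S : Finset ℕ} (hS : ∀ p ∈ S, p.Prime) (U : Finset ℕ) : |cf S U| = gg S * dd U := by
  unfold cf
  rw [abs_mul, abs_mul, abs_pow, abs_neg, abs_one, one_pow, one_mul, abs_of_pos (gg_pos hS),
    Nat.abs_cast]

lemma sum_cf {S : Finset ℕ} (hS : ∀ p ∈ S, p.Prime) : ∑ U ∈ S.powerset, |cf S U| = wt S := by
  unfold wt
  rw [mul_sum]
  exact sum_congr rfl fun U _ => abs_cf hS U

lemma wt_nonneg {S : Finset ℕ} (hS : ∀ p ∈ S, p.Prime) : 0 ≤ wt S :=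
  sum_cf hS ▸ sum_nonneg fun _ _ => abs_nonneg _

lemma sum_pw {W : ℕ} {Y : ℝ} {D : Finset (Finset ℕ)} (hD : D ⊆ LL W Y) :
    ∑ x ∈ pw D, |cf x.1 x.2| ≤ ∑ S ∈ LL W Y, wt S := by
  unfold pw
  rw [sum_sigma]
  refine le_trans (le_of_eq (sum_congr rfl fun S hS =>
    sum_cf fun p hp => ((mem_LL.1 (hD hS)).1 p hp).1)) ?_
  exact sum_le_sum_of_subset_of_nonneg hD fun S hS _ =>
    wt_nonneg fun p hp => ((mem_LL.1 hS).1 p hp).1

lemma RR_eq (R : ℕ → ℝ) (A D : Finset (Finset ℕ)) : RR R A D =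
    ∑ S ∈ A, ∑ x ∈ pw D, cf x.1 x.2 * ∑ U ∈ S.powerset, cf S U * R (dd (U ∪ x.2)) := by
  unfold RR pw rho
  refine sum_congr rfl fun S _ => ?_
  rw [sum_sigma]
  refine sum_congr rfl fun S' _ => ?_
  rw [sum_comm, mul_sum]
  refine sum_congr rfl fun U' _ => ?_
  rw [mul_sum, mul_sum]
  refine sum_congr rfl fun U _ => ?_
  unfold cf
  ring

lemma dd_mono {U S : Finset ℕ} (hS : ∀ p ∈ S, p.Prime) (h : U ⊆ S) : dd U ≤ dd S :=
  prod_le_prod_of_subset_of_one_le' h fun p hp _ => (hS p hp).one_le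

lemma dd_un {U V : Finset ℕ} (hU : ∀ p ∈ U, p.Prime) : dd (U ∪ V) ≤ dd U * dd V := by
  rw [← dd_union]
  exact Nat.le_mul_of_pos_right _ (dd_pos fun p hp => hU p (mem_inter.1 hp).1)

lemma dd_ins {U : Finset ℕ} {p : ℕ} (hp : p ∉ U) : dd (insert p U) = p * dd U := prod_insert hp

lemma dd_small {U S U' S' : Finset ℕ} {p : ℕ} (hS : ∀ p ∈ S, p.Prime) (hS' : ∀ p ∈ S', p.Prime)
    (hU : U ⊆ S) (hU' : U' ⊆ S') (hp : p ∈ S) (h : p ∉ U ∨ p ∈ S') :
    dd (U ∪ U') * p ≤ dd S * dd S' := by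
  rcases h with h | h
  · have h1 := dd_mono hS (insert_subset hp hU)
    rw [dd_ins h] at h1
    calc _ ≤ dd U * dd U' * p := Nat.mul_le_mul_right _ (dd_un fun q hq => hS q (hU hq))
      _ = p * dd U * dd U' := by ring
      _ ≤ _ := Nat.mul_le_mul h1 (dd_mono hS' hU')
  · rw [← dd_union]
    refine Nat.mul_le_mul (dd_mono (fun q hq => ?_) (union_subset_union hU hU')) ?_
    · exact (mem_union.1 hq).elim (hS q) (hS' q)
    · have h1 := dd_mono (fun q hq => hS q (mem_inter.1 hq).1)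
        (singleton_subset_iff.2 (mem_inter.2 ⟨hp, h⟩))
      rwa [dd, prod_singleton] at h1

lemma pick {S : Finset ℕ} {p : ℕ} (hp : p ∉ S) (f : Finset ℕ → ℝ) :
    ∑ U ∈ (insert p S).powerset, (if p ∈ U then f U else 0) = ∑ U ∈ S.powerset, f (insert p U) := by
  rw [sum_powerset_insert hp, sum_eq_zero fun U hU => if_neg fun h => hp (mem_powerset.1 hU h),
    zero_add]
  exact sum_congr rfl fun U _ => if_pos (mem_insert_self _ _)

lemma big {l S' U' : Finset ℕ} {p m : ℕ} (R : ℕ → ℝ) (hpm : p ≠ m) (hp : p ∉ l) (hm : m ∉ l)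
    (hU' : U' ⊆ S') :
    ∑ U ∈ (insert p (insert m l)).powerset, (if p ∈ U ∧ m ∈ U ∧ p ∉ S' ∧ m ∉ S' then
      cf (insert p (insert m l)) U * R (dd (U ∪ U')) else 0) =
    ∑ U ∈ l.powerset, cf l U * (be S' m * be S' p * R (dd (U ∪ U') * m * p)) := by
  have hp' : p ∉ insert m l := by simp [hpm, hp]
  simp only [ite_and]
  rw [pick hp']
  simp only [mem_insert, hpm.symm, false_or]
  rw [pick hm]
  refine sum_congr rfl fun U hU => ?_
  have h1 : m ∉ U := fun h => hm (mem_powerset.1 hU h)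
  have h2 : p ∉ insert m U := by
    simp only [mem_insert, hpm, false_or]
    exact fun h => hp (mem_powerset.1 hU h)
  unfold be
  by_cases a1 : p ∈ S'
  · simp [a1]
  by_cases a2 : m ∈ S'
  · simp [a2]
  have h3 : m ∉ U ∪ U' := fun h => (mem_union.1 h).elim h1 fun h => a2 (hU' h)
  have h4 : p ∉ insert m (U ∪ U') := by
    rw [← insert_union]
    exact fun h => (mem_union.1 h).elim h2 fun h => a1 (hU' h)
  rw [if_pos a1, if_pos a2, if_neg a1, if_neg a2, insert_union, insert_union, dd_ins h4, dd_ins h3,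
    show p * (m * dd (U ∪ U')) = dd (U ∪ U') * m * p by ring]
  unfold cf gg
  rw [prod_insert hp', prod_insert hm, card_insert_of_notMem h2, card_insert_of_notMem h1,
    dd_ins h2, dd_ins h1]
  push_cast
  ring

lemma cop {k : ℕ} {Z Z' : ℝ} {S S' U U' : Finset ℕ} (hS : S ∈ LL k Z) (hS' : S' ∈ LL k Z')
    (hU : U ⊆ S) (hU' : U' ⊆ S') : dd (U ∪ U') ≠ 0 ∧ Nat.Coprime (dd (U ∪ U')) k := by
  have h : ∀ p ∈ U ∪ U', p.Prime ∧ Nat.Coprime p k := fun p hp => (mem_union.1 hp).elim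
    (fun h => (mem_LL.1 hS).1 p (hU h)) fun h => (mem_LL.1 hS').1 p (hU' h)
  exact ⟨(dd_pos fun p hp => (h p hp).1).ne', Nat.Coprime.prod_left fun p hp => (h p hp).2⟩

lemma split {l S' U' : Finset ℕ} {p m k : ℕ} {R : ℕ → ℝ} {c Z P₀ : ℝ} (hc : 0 ≤ c) (hP : 0 < P₀)
    (hR : ∀ d : ℕ, d ≠ 0 → Nat.Coprime d k → |R d| ≤ c * d) (hpm : p ≠ m) (hp : p ∉ l)
    (hm : m ∉ l) (h1 : P₀ ≤ p) (h2 : P₀ ≤ m) (hS : insert p (insert m l) ∈ LL k Z)
    (hS' : S' ∈ LL k Z) (hU' : U' ⊆ S') :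
    |∑ U ∈ (insert p (insert m l)).powerset, cf (insert p (insert m l)) U * R (dd (U ∪ U')) -
      ∑ U ∈ l.powerset, cf l U * (be S' m * be S' p * R (dd (U ∪ U') * m * p))| ≤
      c * (Z ^ 2 / P₀) * wt (insert p (insert m l)) := by
  have a1 := mem_LL.1 hS
  have a2 := mem_LL.1 hS'
  have hZ : 0 ≤ Z := (Nat.cast_nonneg _).trans a1.2
  rw [← big R hpm hp hm hU', ← sum_sub_distrib, ← sum_cf fun q hq => (a1.1 q hq).1, mul_sum]
  refine (abs_sum_le_sum_abs _ _).trans (sum_le_sum fun U hU => ?_)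
  have hU := mem_powerset.1 hU
  split_ifs with h
  · rw [sub_self, abs_zero]
    positivity
  have key : ∀ q ∈ insert p (insert m l), P₀ ≤ q → q ∉ U ∨ q ∈ S' →
      (dd (U ∪ U') : ℝ) ≤ Z ^ 2 / P₀ := fun q hq h3 h4 => by
    have h5 : (dd (U ∪ U') : ℝ) * q ≤ dd (insert p (insert m l)) * dd S' := by
      exact_mod_cast dd_small (fun q hq => (a1.1 q hq).1) (fun q hq => (a2.1 q hq).1) hU hU' hq h4
    rw [le_div_iff₀ hP, sq]
    calc _ ≤ (dd (U ∪ U') : ℝ) * q := by gcongr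
      _ ≤ _ := h5.trans (mul_le_mul a1.2 a2.2 (Nat.cast_nonneg _) hZ)
  have h6 : (dd (U ∪ U') : ℝ) ≤ Z ^ 2 / P₀ := by
    by_cases h7 : p ∉ U ∨ p ∈ S'
    · exact key p (mem_insert_self _ _) h1 h7
    · exact key m (mem_insert_of_mem (mem_insert_self _ _)) h2 (by tauto)
  obtain ⟨b1, b2⟩ := cop hS hS' hU hU'
  rw [sub_zero, abs_mul, mul_comm]
  exact mul_le_mul_of_nonneg_right ((hR _ b1 b2).trans (by gcongr)) (abs_nonneg _)

lemma grp {P₁ P₂ : Finset ℕ} {b : ℕ → ℕ} {N : ℕ} (h1 : ∀ p ∈ P₁, b p < N)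
    (h2 : ∀ p ∈ P₂, b p < N) (F : ℕ → ℕ → ℕ → ℝ) :
    ∑ p ∈ P₁ ×ˢ P₂, F (b p.1 + b p.2) p.1 p.2 = ∑ i ∈ range N, ∑ j ∈ range N,
      ∑ m ∈ P₂.filter (fun m => b m = j), ∑ p ∈ P₁.filter (fun p => b p = i), F (i + j) p m := by
  rw [sum_product, ← sum_fiberwise_of_maps_to (g := b) fun p hp => mem_range.2 (h1 p hp)]
  refine sum_congr rfl fun i _ => ?_
  rw [sum_comm, ← sum_fiberwise_of_maps_to (g := b) fun p hp => mem_range.2 (h2 p hp)]
  refine sum_congr rfl fun j _ => sum_congr rfl fun m hm => sum_congr rfl fun p hp => ?_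
  rw [(mem_filter.1 hm).2, (mem_filter.1 hp).2]

lemma swap {ι κ : Type} (I : Finset ι) (J : Finset κ) (MM PP : Finset ℕ) (c : ι → ℝ) (d : κ → ℝ)
    (g : ι → κ → ℕ → ℕ → ℝ) {E : ℝ}
    (h : ∀ x ∈ I, ∀ y ∈ J, |∑ m ∈ MM, ∑ p ∈ PP, g x y m p| ≤ E) :
    |∑ m ∈ MM, ∑ p ∈ PP, ∑ x ∈ I, ∑ y ∈ J, d y * (c x * g x y m p)| ≤
      (∑ x ∈ I, |c x|) * (∑ y ∈ J, |d y|) * E := by
  have e : ∑ m ∈ MM, ∑ p ∈ PP, ∑ x ∈ I, ∑ y ∈ J, d y * (c x * g x y m p) =
      ∑ x ∈ I, ∑ y ∈ J, c x * d y * ∑ m ∈ MM, ∑ p ∈ PP, g x y m p := by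
    simp only [mul_sum]
    rw [← sum_product', sum_comm]
    refine sum_congr rfl fun x _ => ?_
    rw [sum_comm]
    refine sum_congr rfl fun y _ => ?_
    rw [sum_product]
    exact sum_congr rfl fun m _ => sum_congr rfl fun p _ => by ring
  rw [e, sum_mul_sum, sum_mul]
  refine (abs_sum_le_sum_abs _ _).trans (sum_le_sum fun x hx => ?_)
  rw [sum_mul]
  refine (abs_sum_le_sum_abs _ _).trans (sum_le_sum fun y hy => ?_)
  rw [abs_mul, abs_mul]
  exact mul_le_mul_of_nonneg_left (h x hx y hy) (by positivity)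

lemma not_mem {k : ℕ} {P l : Finset ℕ} {Y : ℝ} (hl : l ∈ LL (k * dd P) Y) {p : ℕ} (hp : p ∈ P) :
    p ∉ l := fun h => by
  obtain ⟨h1, h2⟩ := (mem_LL.1 hl).1 p h
  exact (h1.coprime_iff_not_dvd.1 h2) (Dvd.dvd.mul_left (dvd_prod_of_mem _ hp) k)

lemma LL_sub (k W : ℕ) (Y : ℝ) : LL (k * W) Y ⊆ LL k Y := fun _ h =>
  mem_LL.2 ⟨fun p hp => ⟨((mem_LL.1 h).1 p hp).1,
    ((mem_LL.1 h).1 p hp).2.coprime_mul_right_right⟩, (mem_LL.1 h).2⟩

end REP

open REP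

theorem pRE : T_RE := by
  intro R k N P₁ P₂ b c z B P₀ E Λ hc hz hB hP hE hΛ hdis hPr hR hW hbil
  have hB0 : 0 < B := by linarith
  have hne : ∀ p ∈ P₁, ∀ m ∈ P₂, p ≠ m := fun p hp m hm h =>
    disjoint_left.1 hdis hp (h ▸ hm)
  set A := (P₁ ×ˢ P₂).sigma fun p => LL (k * dd (P₁ ∪ P₂)) (z * B / B ^ (b p.1 + b p.2)) with hA
  have mA : ∀ a ∈ A, a.1.1 ∈ P₁ ∧ a.1.2 ∈ P₂ ∧
      a.2 ∈ LL (k * dd (P₁ ∪ P₂)) (z * B / B ^ (b a.1.1 + b a.1.2)) := fun a ha =>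
    ⟨(mem_product.1 (mem_sigma.1 ha).1).1, (mem_product.1 (mem_sigma.1 ha).1).2,
      (mem_sigma.1 ha).2⟩
  have hL : ∀ a ∈ A, insert a.1.1 (insert a.1.2 a.2) ∈ LL k (z * B ^ 3) := by
    intro a ha
    obtain ⟨h1, h2, h3⟩ := mA a ha
    have u1 := hPr _ (mem_union_left _ h1)
    have u2 := hPr _ (mem_union_right _ h2)
    have h4 := mem_LL.1 (LL_sub _ _ _ h3)
    refine mem_LL.2 ⟨fun q hq => ?_, ?_⟩
    · rcases mem_insert.1 hq with rfl | hq
      · exact ⟨u1.1, u1.2.1⟩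
      rcases mem_insert.1 hq with rfl | hq
      · exact ⟨u2.1, u2.2.1⟩
      · exact h4.1 q hq
    · rw [dd_ins (by simp [hne _ h1 _ h2, not_mem h3 (mem_union_left _ h1)]),
        dd_ins (not_mem h3 (mem_union_right _ h2))]
      push_cast
      calc _ ≤ B ^ b a.1.1 * B * (B ^ b a.1.2 * B * (z * B / B ^ (b a.1.1 + b a.1.2))) := by
            gcongr
            exacts [u1.2.2.2.1, u2.2.2.2.1, h4.2]
        _ = _ := by rw [pow_add]; field_simp
  have hsub : EE k P₁ P₂ b z B ⊆ LL k (z * B ^ 3) := fun S hS => by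
    obtain ⟨a, ha, rfl⟩ := mem_image.1 hS
    exact hL a ha
  have hinj : Set.InjOn (fun a : (Σ _ : ℕ × ℕ, Finset ℕ) => insert a.1.1 (insert a.1.2 a.2)) A := by
    rintro ⟨⟨p, m⟩, l⟩ ha ⟨⟨p', m'⟩, l'⟩ ha' h
    obtain ⟨h1, h2, h3⟩ := mA _ ha
    obtain ⟨h1', h2', h3'⟩ := mA _ ha'
    simp only at h h1 h2 h3 h1' h2' h3'
    have e1 : p = p' := by
      have : p ∈ insert p' (insert m' l') := h ▸ mem_insert_self _ _
      simpa [hne _ h1 _ h2', not_mem h3' (mem_union_left _ h1)] using this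
    have e2 : m = m' := by
      have : m ∈ insert p' (insert m' l') := h ▸ mem_insert_of_mem (mem_insert_self _ _)
      simpa [(hne _ h1' _ h2).symm, not_mem h3' (mem_union_right _ h2)] using this
    subst e1 e2
    have e3 : ((insert p (insert m l)).erase p).erase m =
        ((insert p (insert m l')).erase p).erase m := by rw [h]
    have n1 : p ∉ insert m l := by simp [hne _ h1 _ h2, not_mem h3 (mem_union_left _ h1)]
    have n2 : p ∉ insert m l' := by simp [hne _ h1 _ h2, not_mem h3' (mem_union_left _ h1)]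
    rw [erase_insert n1, erase_insert n2, erase_insert (not_mem h3 (mem_union_right _ h2)),
      erase_insert (not_mem h3' (mem_union_right _ h2))] at e3
    rw [e3]
  refine ⟨hsub, fun D hD => ?_⟩
  have hZ : 0 ≤ z * B ^ 3 := by positivity
  have hZΛ := hW k _ hZ le_rfl
  have hDs := (sum_pw hD).trans hZΛ
  have hw : ∑ a ∈ A, wt (insert a.1.1 (insert a.1.2 a.2)) ≤ z * B ^ 3 * Λ := by
    rw [← sum_image (f := wt) hinj]
    exact (sum_le_sum_of_subset_of_nonneg hsub fun S hS _ =>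
      wt_nonneg fun p hp => ((mem_LL.1 hS).1 p hp).1).trans hZΛ
  let G : (Σ _ : ℕ × ℕ, Finset ℕ) → (Σ _ : Finset ℕ, Finset ℕ) → ℝ := fun a x =>
    ∑ U ∈ a.2.powerset, cf a.2 U *
      (be x.1 a.1.2 * be x.1 a.1.1 * R (dd (U ∪ x.2) * a.1.2 * a.1.1))
  have s1 : |RR R (EE k P₁ P₂ b z B) D - ∑ a ∈ A, ∑ x ∈ pw D, cf x.1 x.2 * G a x| ≤
      c * ((z * B ^ 3) ^ 2 / P₀) * (z * B ^ 3 * Λ) ^ 2 := by
    rw [RR_eq, EE, sum_image hinj, ← sum_sub_distrib]
    refine (abs_sum_le_sum_abs _ _).trans ?_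
    have : ∀ a ∈ A, |∑ x ∈ pw D, cf x.1 x.2 * ∑ U ∈ (insert a.1.1 (insert a.1.2 a.2)).powerset,
        cf (insert a.1.1 (insert a.1.2 a.2)) U * R (dd (U ∪ x.2)) -
        ∑ x ∈ pw D, cf x.1 x.2 * G a x| ≤ c * ((z * B ^ 3) ^ 2 / P₀) * (z * B ^ 3 * Λ) *
          wt (insert a.1.1 (insert a.1.2 a.2)) := by
      intro a ha
      obtain ⟨h1, h2, h3⟩ := mA a ha
      have h0 := wt_nonneg fun p hp => ((mem_LL.1 (hL a ha)).1 p hp).1
      rw [← sum_sub_distrib]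
      refine (abs_sum_le_sum_abs _ _).trans ((sum_le_sum fun x hx => ?_).trans
        (?_ : ∑ x ∈ pw D, |cf x.1 x.2| * (c * ((z * B ^ 3) ^ 2 / P₀) *
          wt (insert a.1.1 (insert a.1.2 a.2))) ≤ _))
      · rw [← mul_sub, abs_mul]
        exact mul_le_mul_of_nonneg_left (split hc hP hR (hne _ h1 _ h2)
          (not_mem h3 (mem_union_left _ h1)) (not_mem h3 (mem_union_right _ h2))
          (hPr _ (mem_union_left _ h1)).2.2.1 (hPr _ (mem_union_right _ h2)).2.2.1 (hL a ha)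
          (hD (mem_pw.1 hx).1) (mem_pw.1 hx).2) (abs_nonneg _)
      · rw [← sum_mul]
        exact (mul_le_mul_of_nonneg_right hDs (by positivity)).trans (le_of_eq (by ring))
    refine (sum_le_sum this).trans ?_
    rw [← mul_sum]
    exact (mul_le_mul_of_nonneg_left hw (by positivity)).trans (le_of_eq (by ring))
  have s2 : |∑ a ∈ A, ∑ x ∈ pw D, cf x.1 x.2 * G a x| ≤
      (N : ℝ) ^ 2 * E * (z ^ 2 * B ^ 4) * Λ ^ 2 := by
    let F : ℕ → ℕ → ℕ → ℝ := fun s p m =>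
      ∑ y ∈ pw (LL (k * dd (P₁ ∪ P₂)) (z * B / B ^ s)), ∑ x ∈ pw D, cf x.1 x.2 *
        (cf y.1 y.2 * (be x.1 m * be x.1 p * R (dd (y.2 ∪ x.2) * m * p)))
    have e : ∑ a ∈ A, ∑ x ∈ pw D, cf x.1 x.2 * G a x =
        ∑ p ∈ P₁ ×ˢ P₂, F (b p.1 + b p.2) p.1 p.2 := by
      rw [hA, sum_sigma]
      refine sum_congr rfl fun p _ => ?_
      refine Eq.trans (sum_congr rfl fun l _ => ?_) (sum_sigma _ _ _).symm
      simp only [G, mul_sum]
      exact sum_comm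
    rw [e, grp (fun p hp => (hPr p (mem_union_left _ hp)).2.2.2.2)
      (fun p hp => (hPr p (mem_union_right _ hp)).2.2.2.2) F]
    have hij : ∀ i j : ℕ, |∑ m ∈ P₂.filter (fun m => b m = j), ∑ p ∈ P₁.filter (fun p => b p = i),
        F (i + j) p m| ≤ E * (z ^ 2 * B ^ 4) * Λ ^ 2 := by
      intro i j
      have hY : z * B / B ^ (i + j) ≤ z * B ^ 3 :=
        (div_le_self (by positivity) (one_le_pow₀ hB)).trans (by
          gcongr
          exact le_self_pow₀ hB (by norm_num))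
      refine (swap (pw (LL (k * dd (P₁ ∪ P₂)) (z * B / B ^ (i + j)))) (pw D) _ _
        (fun y => cf y.1 y.2) (fun x => cf x.1 x.2)
        (fun y x m p => be x.1 m * be x.1 p * R (dd (y.2 ∪ x.2) * m * p))
        (E := E * (B ^ i * B ^ j)) fun y hy x hx => ?_).trans ?_
      · have h1 := LL_sub _ _ _ (mem_pw.1 hy).1
        have h2 := hD (mem_pw.1 hx).1
        obtain ⟨b1, b2⟩ := cop h1 h2 (mem_pw.1 hy).2 (mem_pw.1 hx).2
        refine hbil i j _ _ _ _ _ b1 b2 (fun p hp => mem_filter.1 hp) (fun p hp => mem_filter.1 hp)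
          (fun p hp => be_le _ (hPr p (mem_union_right _ (mem_filter.1 hp).1)).1)
          (fun p hp => be_le _ (hPr p (mem_union_left _ (mem_filter.1 hp).1)).1) ?_
        have h3 := mem_LL.1 (LL_down h1 (mem_pw.1 hy).2)
        have h4 := mem_LL.1 (LL_down h2 (mem_pw.1 hx).2)
        have h5 : (dd (y.2 ∪ x.2) : ℝ) ≤ dd y.2 * dd x.2 := by
          exact_mod_cast dd_un fun p hp => (h3.1 p hp).1
        calc _ ≤ z * B / B ^ (i + j) * (z * B ^ 3) * B ^ i * B ^ j := by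
              gcongr
              exact h5.trans (mul_le_mul h3.2 h4.2 (Nat.cast_nonneg _) (by positivity))
          _ = _ := by rw [pow_add]; field_simp
      · calc _ ≤ z * B / B ^ (i + j) * Λ * (z * B ^ 3 * Λ) * (E * (B ^ i * B ^ j)) := by
              gcongr
              exact (sum_pw Subset.rfl).trans (hW _ _ (by positivity) hY)
          _ = _ := by rw [pow_add]; field_simp
    refine (abs_sum_le_sum_abs _ _).trans ((sum_le_card_nsmul _ _ _ fun i _ =>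
      (abs_sum_le_sum_abs _ _).trans (sum_le_card_nsmul _ _ _ fun j _ => hij i j)).trans ?_)
    rw [card_range, nsmul_eq_mul, nsmul_eq_mul]
    exact le_of_eq (by ring)
  exact (abs_sub_abs_le_abs_sub _ _ |> sub_le_iff_le_add.1).trans (add_le_add s1 s2)

end Pool.Agent.P.MP_26a8c3_nt.U
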