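import Pool.Agent.P.MP_26a8c3_nt.U.St

/-! Remainders summed over two blocks of primes. -/

namespace Pool.Agent.P.MP_26a8c3_nt.U

open Finset Real MeasureTheory Pool.Agent.P.MP_26a8c3_nt.Hyb

lemma Rem_wt {a b : ℝ} (ha : |a| ≤ 2) (hb : |b| ≤ 2) : |a * b| ≤ 4 := by
  rw [abs_mul]
  exact (mul_le_mul ha hb (abs_nonneg _) zero_le_two).trans (by norm_num)

lemma Rem_one {a A : ℝ} {m : ℕ} (ha : |a| ≤ 2) (hA : 0 < A) (hm : A ≤ m) :
    ‖((a / 2 * (A / m) : ℝ) : ℂ)‖ ≤ 1 := by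
  have b : (0 : ℝ) < m := hA.trans_le hm
  rw [Complex.norm_real, Real.norm_eq_abs, abs_mul, abs_div, abs_two, abs_of_pos (div_pos hA b)]
  exact mul_le_one₀ ((div_le_one two_pos).2 ha) (by positivity) ((div_le_one b).2 hm)

lemma Rem_trm {g : ℝ → ℝ} {C : ℝ} (hg : Good g C) (k : ℕ) [NeZero k] (l : ZMod k) (x₀ : ℝ)
    {y : ℝ} (hy : 0 < y) {q : ℕ} (hq : q ≠ 0) (hqk : Nat.Coprime q k) (MM PP : Finset ℕ)
    (γ β : ℕ → ℝ) {M₀ P₀ W : ℝ} (hγ : ∀ m ∈ MM, |γ m| ≤ 2) (hβ : ∀ p ∈ PP, |β p| ≤ 2)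
    (hM : 0 < M₀) (hP : 0 < P₀) (hW0 : 0 ≤ W) (hMM : ∀ m ∈ MM, M₀ ≤ m ∧ Nat.Coprime m k)
    (hPP : ∀ p ∈ PP, P₀ ≤ p ∧ Nat.Coprime p k) (h : ℤ)
    (hW : ∀ v : ℝ, -1 ≤ v → v ≤ 2 → ∀ α β : ℕ → ℂ, (∀ m ∈ MM, ‖α m‖ ≤ 1) → (∀ p ∈ PP, ‖β p‖ ≤ 1) →
      ‖∑ m ∈ MM, ∑ p ∈ PP, α m * β p *
        ker k (h * l * (q : ZMod k)⁻¹) (-(h * (x₀ + y * v)) / (k * q)) m p‖ ≤ W) :
    ‖∑ m ∈ MM, ∑ p ∈ PP, ((γ m * β p : ℝ) : ℂ) * trm g k l x₀ y (q * m * p) h‖ ≤
      2 * (4 * (y / k) / (q * M₀ * P₀) * W) := by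
  have hk : (0 : ℝ) < k := by exact_mod_cast Nat.pos_of_ne_zero (NeZero.ne k)
  have hq' : (0 : ℝ) < q := by exact_mod_cast Nat.pos_of_ne_zero hq
  have hgc : Continuous g := hg.smooth.continuous
  set F : ℕ → ℕ → ℝ → ℂ := fun m p v => ((γ m * β p : ℝ) : ℂ) * ((g v : ℂ) *
    ((y / (k * (q * m * p)) : ℝ) *
      ker k (h * l * (q : ZMod k)⁻¹) (-(h * (x₀ + y * v)) / (k * q)) m p)) with hF
  have hint : ∀ m p, Integrable (F m p) := by
    intro m p
    refine Continuous.integrable_of_hasCompactSupport ?_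
      (cpt_of hg.supp one_pos fun u hu h0 => hu ?_)
    · have := continuous_ee
      simp only [hF, ker]
      fun_prop
    · rw [one_mul] at h0
      simp [hF, h0]
  have e : ∑ m ∈ MM, ∑ p ∈ PP, ((γ m * β p : ℝ) : ℂ) * trm g k l x₀ y (q * m * p) h =
      ∫ v, ∑ m ∈ MM, ∑ p ∈ PP, F m p v := by
    rw [integral_finsetSum _ fun m _ => integrable_finsetSum _ fun p _ => hint m p]
    refine Finset.sum_congr rfl fun m hm => ?_
    rw [integral_finsetSum _ fun p _ => hint m p]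
    refine Finset.sum_congr rfl fun p hp => ?_
    rw [trm_eq g k l x₀ y hqk (hMM m hm).2 (hPP p hp).2, ← integral_const_mul]
  rw [e]
  set V := 4 * (y / k) / (q * M₀ * P₀) with hV
  have hV0 : 0 < V := by positivity
  have hgi : Integrable g := hgc.integrable_of_hasCompactSupport
    (cpt_of hg.supp one_pos fun u hu => by rwa [one_mul])
  refine (norm_integral_le_of_norm_le (hgi.mul_const (V * W)) (.of_forall fun v => ?_)).trans ?_
  · by_cases h0 : g v = 0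
    · simp [hF, h0]
    obtain ⟨h1, h2⟩ := hg.supp v h0
    have h3 := hW v h1 h2 (fun m => ((γ m / 2 * (M₀ / m) : ℝ) : ℂ))
      (fun p => ((β p / 2 * (P₀ / p) : ℝ) : ℂ)) (fun m hm => Rem_one (hγ m hm) hM (hMM m hm).1)
      (fun p hp => Rem_one (hβ p hp) hP (hPP p hp).1)
    have e2 : ∑ m ∈ MM, ∑ p ∈ PP, F m p v = ((g v * V : ℝ) : ℂ) * ∑ m ∈ MM, ∑ p ∈ PP,
        ((γ m / 2 * (M₀ / m) : ℝ) : ℂ) * ((β p / 2 * (P₀ / p) : ℝ) : ℂ) *
        ker k (h * l * (q : ZMod k)⁻¹) (-(h * (x₀ + y * v)) / (k * q)) m p := by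
      rw [Finset.mul_sum]
      refine Finset.sum_congr rfl fun m hm => ?_
      rw [Finset.mul_sum]
      refine Finset.sum_congr rfl fun p hp => ?_
      have : γ m * β p * (g v * (y / (k * (q * m * p)))) =
          g v * V * (γ m / 2 * (M₀ / m) * (β p / 2 * (P₀ / p))) := by
        have b : (0 : ℝ) < m := hM.trans_le (hMM m hm).1
        have b' : (0 : ℝ) < p := hP.trans_le (hPP p hp).1
        rw [hV]; field_simp; ring
      simp only [hF]
      rw [← mul_assoc (g v : ℂ), ← mul_assoc ((γ m * β p : ℝ) : ℂ), ← Complex.ofReal_mul,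
        ← Complex.ofReal_mul, this]
      push_cast; ring
    rw [e2, norm_mul, Complex.norm_real, Real.norm_of_nonneg (mul_nonneg (hg.nonneg v) hV0.le),
      mul_assoc]
    exact mul_le_mul_of_nonneg_left (mul_le_mul_of_nonneg_left h3 hV0.le) (hg.nonneg v)
  · rw [integral_mul_const]
    exact mul_le_mul_of_nonneg_right hg.int_le (by positivity)

lemma Rem_dvd {k : ℕ} {l : ZMod k} (hl : IsUnit l) {q : ℕ} (hqk : Nat.Coprime q k) {h Δ : ℤ}
    (hh0 : h ≠ 0) (h1 : Δ ≠ 0) (h2 : (h : ZMod k) * l * (q : ZMod k)⁻¹ * (Δ : ZMod k) = 0) :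
    (k : ℝ) ≤ |(h : ℝ)| * |(Δ : ℝ)| := by
  have hu : IsUnit (l * (q : ZMod k)⁻¹) := hl.mul (IsUnit.of_mul_eq_one _
    (ZMod.inv_mul_of_unit _ ((ZMod.isUnit_iff_coprime _ _).2 hqk)))
  have h3 : ((h * Δ : ℤ) : ZMod k) = 0 := by
    refine hu.mul_right_eq_zero.1 ?_
    push_cast
    linear_combination h2
  have h4 := Int.le_of_dvd (abs_pos.2 (mul_ne_zero hh0 h1))
    ((dvd_abs _ _).2 ((ZMod.intCast_zmod_eq_zero_iff_dvd _ _).1 h3))
  rw [abs_mul] at h4
  exact_mod_cast h4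

theorem pRem (hBil : T_Bil) : T_Rem := by
  intro g C hg k _ l hl x y s t B P M K L q PP MM γ β hy hyx hsx hs0 hq hqk hK hL hγ hβ hPP hMM
    hB hBP hBM ht hs1 hs2 hs3 hs4 hhi
  have hk : (0 : ℝ) < k := by exact_mod_cast Nat.pos_of_ne_zero (NeZero.ne k)
  have hq' : (0 : ℝ) < q := by exact_mod_cast Nat.pos_of_ne_zero hq
  have hC := hg.pos
  have hK' : (1 : ℝ) ≤ K := by exact_mod_cast hK
  have hL' : (1 : ℝ) ≤ L := by exact_mod_cast hL
  have hB2 : 2 ≤ B := by linarith only [hB, one_le_mul_of_one_le_of_one_le hK' hL']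
  have hB1 : 1 ≤ B := by linarith
  have hB0 : 0 < B := by linarith
  have hP0 : 0 < P := by linarith
  have hM0 : 0 < M := by linarith
  have hx0 : 0 < x := hy.trans_le hyx
  set T := y / k with hT
  have hT0 : 0 < T := by positivity
  have hPP' : ∀ p ∈ PP, p ≠ 0 ∧ (p : ℝ) ≤ P * B := fun p hp =>
    ⟨(hPP p hp).1.ne_zero, (hPP p hp).2.2.1⟩
  have hMM' : ∀ m ∈ MM, m ≠ 0 ∧ (m : ℝ) ≤ M * B := fun m hm =>
    ⟨(hMM m hm).1.ne_zero, (hMM m hm).2.2.1⟩
  have hn0 : ∀ m ∈ MM, ∀ p ∈ PP, q * m * p ≠ 0 := fun m hm p hp =>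
    mul_ne_zero (mul_ne_zero hq (hMM' m hm).1) (hPP' p hp).1
  have hco : ∀ m ∈ MM, ∀ p ∈ PP, Nat.Coprime (q * m * p) k := fun m hm p hp =>
    Nat.Coprime.mul_left (Nat.Coprime.mul_left hqk (hMM m hm).2.2.2) (hPP p hp).2.2.2
  rcases le_total (q * P * M) (T / B ^ 11) with hlo | hlo
  · rw [← Real.norm_eq_abs]
    refine (sum_le_aux MM PP _ (c := 4 * (4 * C * q / T)) (by positivity)
      (by positivity : 0 ≤ M * B) (by positivity : 0 ≤ P * B) hMM' hPP'
      fun m hm p hp => ?_).trans ?_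
    · rw [Real.norm_eq_abs, abs_mul]
      refine (mul_le_mul (Rem_wt (hγ m hm) (hβ p hp)) (rem_triv hg k l (x - y) hy
        (hn0 m hm p hp) (hco m hm p hp)) (abs_nonneg _) (by norm_num)).trans (le_of_eq ?_)
      push_cast; ring
    · calc _ = 16 * C * (q * P * M) * (B ^ 4 / T * (P * M)) := by field_simp; ring
        _ ≤ (16 * C + 32) * (T / B ^ 11) * (B ^ 4 / T * (P * M)) := by gcongr; linarith
        _ = _ := by field_simp
  set H : ℕ := ⌈B ^ 15⌉₊ with hH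
  have hB9 : 1 ≤ B ^ 15 := one_le_pow₀ hB1
  have hH1 : B ^ 15 ≤ H := Nat.le_ceil _
  have hH2 : (H : ℝ) ≤ 2 * B ^ 15 := by
    have := Nat.ceil_lt_add_one (show 0 ≤ B ^ 15 by positivity)
    linarith
  have hH3 : (1 : ℝ) ≤ H := hB9.trans hH1
  have hH4 : 1 ≤ H := by exact_mod_cast hH3
  have htail : ‖∑ m ∈ MM, ∑ p ∈ PP, ((γ m * β p : ℝ) : ℂ) *
      ((rem g k l (x - y) y (q * m * p) : ℂ) -
      ∑ n ∈ range H, (trm g k l (x - y) y (q * m * p) (n + 1) +
        trm g k l (x - y) y (q * m * p) (-(n + 1))))‖ ≤ 8 * C / B ^ 7 * (P * M) := by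
    refine (sum_le_aux MM PP _ (c := 4 * (2 * C * q / T / H)) (by positivity)
      (by positivity : 0 ≤ M * B) (by positivity : 0 ≤ P * B) hMM' hPP'
      fun m hm p hp => ?_).trans ?_
    · rw [norm_mul, Complex.norm_real, Real.norm_eq_abs]
      refine (mul_le_mul (Rem_wt (hγ m hm) (hβ p hp)) (rem_approx hg k l (x - y) hy
        (hn0 m hm p hp) (hco m hm p hp) hH4) (norm_nonneg _) (by norm_num)).trans (le_of_eq ?_)
      push_cast; ring
    · calc _ = 8 * C * (q * P * M) * (B ^ 4 / T * (P * M)) / H := by field_simp; ring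
        _ ≤ 8 * C * (T * B ^ 4) * (B ^ 4 / T * (P * M)) / B ^ 15 := by gcongr
        _ = _ := by field_simp
  have hterm : ∀ h : ℤ, h ≠ 0 → |(h : ℝ)| ≤ H →
      ‖∑ m ∈ MM, ∑ p ∈ PP, ((γ m * β p : ℝ) : ℂ) * trm g k l (x - y) y (q * m * p) h‖ ≤
        8 * (P * M / B ^ 22) := by
    intro h hh0 hhH
    have hh1 : (1 : ℝ) ≤ |(h : ℝ)| := by exact_mod_cast Int.one_le_abs hh0
    refine (Rem_trm hg k l (x - y) hy hq hqk MM PP γ β (W := P * B * (M * B) / B ^ 35) hγ hβ hM0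
      hP0 (by positivity) (fun m hm => ⟨(hMM m hm).2.1, (hMM m hm).2.2.2⟩)
      (fun p hp => ⟨(hPP p hp).2.1, (hPP p hp).2.2.2⟩) h fun v hv1 hv2 α β' hα hβ' => ?_).trans ?_
    · have eX : k * |-(h * (x - y + y * v)) / (k * q)| = |(h : ℝ)| * |x - y + y * v| / q := by
        rw [abs_div, abs_neg, abs_mul, abs_of_pos (by positivity : (0 : ℝ) < k * q)]
        field_simp
      have hx : x = s ^ 2 * T := by rw [hsx]; field_simp
      have hks : (k : ℝ) * x = s ^ 2 * y := by rw [hx, hT]; field_simp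
      refine hBil k _ _ s t B P M H K L PP MM α β' hK hL hα hβ' hPP hMM (fun Δ h1 h2 => ?_) hH3
        hH2 hB hBP hBM ht hs0 hs1 hs2 hs3 hs4 ?_ ?_ ?_
      · exact (Rem_dvd hl hqk hh0 h1 h2).trans
          (mul_le_mul_of_nonneg_right hhH (abs_nonneg _))
      · rw [eX, mul_add]
        have h0 : 0 ≤ B ^ 5 * (|(h : ℝ)| * |x - y + y * v| / q / (P * M)) := by positivity
        by_cases hc : x ≤ 4 * y
        · have a1 : s ^ 2 * y ≤ 4 * k * y := by
            rw [← hks]; linarith only [mul_le_mul_of_nonneg_left hc hk.le]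
          have a2 := le_of_mul_le_mul_right a1 hy
          have a3 : (2 : ℝ) ^ 5 ≤ B ^ 5 := pow_le_pow_left₀ zero_le_two hB2 5
          have a4 : 4 * (k : ℝ) ≤ B ^ 5 * k :=
            mul_le_mul_of_nonneg_right (le_trans (by norm_num) a3) hk.le
          linarith only [a2, a4, h0]
        · have h1 : x / 2 ≤ |x - y + y * v| := le_trans (by
            linarith only [hc, not_le.1 hc, hy, mul_nonneg hy.le (sub_nonneg.2 hv1)])
            (le_abs_self _)
          have h2 : s ^ 2 ≤ B ^ 5 * (|(h : ℝ)| * |x - y + y * v| / q / (P * M)) := by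
            calc s ^ 2 = 2 * B ^ 4 * (1 * (x / 2)) / (T * B ^ 4) := by rw [hx]; field_simp
              _ ≤ B * B ^ 4 * (|(h : ℝ)| * |x - y + y * v|) / (q * P * M) := by gcongr
              _ = _ := by field_simp
          have h3 : 0 ≤ B ^ 5 * (k : ℝ) := by positivity
          linarith only [h2, h3]
      · have : k * y ≤ s ^ 2 * y := by rw [← hks]; gcongr
        exact le_of_mul_le_mul_right this hy
      · rw [eX]
        have h1 : |x - y + y * v| ≤ 2 * x := abs_le.2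
          ⟨by linarith only [hy, hyx, mul_nonneg hy.le (sub_nonneg.2 hv1)],
            by linarith only [hy, hyx, mul_nonneg hy.le (sub_nonneg.2 hv2)]⟩
        calc |(h : ℝ)| * |x - y + y * v| / q / (P * M)
            = |(h : ℝ)| * |x - y + y * v| / (q * P * M) := by field_simp
          _ ≤ 2 * B ^ 15 * (2 * x) / (T / B ^ 11) := by
            gcongr
            exact hhH.trans hH2
          _ = _ := by rw [hx]; field_simp; ring
    · rw [← hT]
      calc _ = 8 * T * (P * M / B ^ 33) / (q * P * M) := by field_simp; ring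
        _ ≤ 8 * T * (P * M / B ^ 33) / (T / B ^ 11) := by gcongr
        _ = _ := by field_simp
  rw [← Real.norm_eq_abs, ← Complex.norm_real]
  have e : ((∑ m ∈ MM, ∑ p ∈ PP, γ m * β p * rem g k l (x - y) y (q * m * p) : ℝ) : ℂ) =
      ∑ m ∈ MM, ∑ p ∈ PP, ((γ m * β p : ℝ) : ℂ) * ((rem g k l (x - y) y (q * m * p) : ℂ) -
        ∑ n ∈ range H, (trm g k l (x - y) y (q * m * p) (n + 1) +
          trm g k l (x - y) y (q * m * p) (-(n + 1)))) + ∑ n ∈ range H,
      (∑ m ∈ MM, ∑ p ∈ PP, ((γ m * β p : ℝ) : ℂ) * trm g k l (x - y) y (q * m * p) (n + 1) +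
        ∑ m ∈ MM, ∑ p ∈ PP, ((γ m * β p : ℝ) : ℂ) *
          trm g k l (x - y) y (q * m * p) (-(n + 1))) := by
    simp only [← Finset.sum_add_distrib]
    rw [Finset.sum_comm (s := range H), ← Finset.sum_add_distrib, Complex.ofReal_sum]
    refine Finset.sum_congr rfl fun m _ => ?_
    rw [Finset.sum_comm (s := range H), ← Finset.sum_add_distrib, Complex.ofReal_sum]
    refine Finset.sum_congr rfl fun p _ => ?_
    simp only [← mul_add, ← Finset.mul_sum]
    push_cast; ring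
  rw [e]
  refine (norm_add_le _ _).trans ((add_le_add htail ((norm_sum_le _ _).trans
    (Finset.sum_le_card_nsmul _ _ (16 * (P * M / B ^ 22)) fun n hn => ?_))).trans ?_)
  · have h1 : |(((n : ℤ) + 1 : ℤ) : ℝ)| ≤ H := by
      rw [abs_of_nonneg (by positivity)]
      exact_mod_cast Finset.mem_range.1 hn
    have h2 := hterm (n + 1) (by positivity) h1
    have h3 := hterm (-(n + 1)) (neg_ne_zero.2 (by positivity)) (by rwa [Int.cast_neg, abs_neg])
    exact (norm_add_le _ _).trans (by linarith)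
  · rw [nsmul_eq_mul, Finset.card_range]
    calc _ ≤ 16 * C / B ^ 7 * (P * M) + 2 * B ^ 15 * (16 * (P * M / B ^ 22)) := by
          gcongr
          norm_num
      _ = _ := by field_simp; ring

end Pool.Agent.P.MP_26a8c3_nt.U
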