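import Pool.Agent.P.MP_26a8c3_nt.U.En
import Pool.Agent.P.MP_26a8c3_nt.U.Bil
import Pool.Agent.P.MP_26a8c3_nt.U.Good
import Pool.Agent.P.MP_26a8c3_nt.U.Rem
import Pool.Agent.P.MP_26a8c3_nt.U.Id
import Pool.Agent.P.MP_26a8c3_nt.U.RE
import Pool.Agent.P.MP_26a8c3_nt.U.G
import Pool.Agent.P.MP_26a8c3_nt.U.Pr
import Pool.Agent.P.MP_26a8c3_nt.U.Core
import Pool.Agent.P.MP_26a8c3_nt.U.Fin

/-! Assembly. -/

namespace Pool.Agent.P.MP_26a8c3_nt.U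

theorem main : T_Main := pFin (pCore pGood (pRem (pBil pEn)) pId pRE pG pPr)

end Pool.Agent.P.MP_26a8c3_nt.U
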