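import Pool.Agent.P.MP_26a8c3_nt.U.St

/-! The number of close congruent pairs of tuples of primes. -/

namespace Pool.Agent.P.MP_26a8c3_nt.U

open Finset Pool.Agent.P.MP_26a8c3_nt.Hyb

lemma En_norm {p e : ℕ} [hp : Fact p.Prime] (he : e.Prime) (h : e ≠ p) :
    padicNorm p ((p : ℚ) * (e : ℚ)⁻¹) < 1 := by
  rw [← div_eq_mul_inv, padicNorm.div, (padicNorm.nat_eq_one_iff e).2
    fun h1 => h ((Nat.prime_dvd_prime_iff_eq hp.out he).1 h1).symm, div_one]
  exact padicNorm.padicNorm_p_lt_one_of_prime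

lemma En_dvd {K p : ℕ} {n n' : Fin K → ℕ} (hp : p.Prime) (hn : ∀ i, (n i).Prime ∧ n i ≠ p)
    (hn' : ∀ i, (n' i).Prime) (h : rs n = rs n') : p ∣ (univ.filter fun i => n' i = p).card := by
  have : Fact p.Prime := ⟨hp⟩
  have h1 : ∑ i, (n i : ℚ)⁻¹ = ∑ i, (n' i : ℚ)⁻¹ := by
    refine Rat.cast_injective (α := ℝ) ?_
    push_cast
    exact h
  have hp0 : (p : ℚ) ≠ 0 := by exact_mod_cast hp.ne_zero
  have h2 : (((univ.filter fun i => n' i = p).card : ℕ) : ℚ) = ∑ i, (p : ℚ) * (n i : ℚ)⁻¹ -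
      ∑ i ∈ univ.filter (fun i => ¬ n' i = p), (p : ℚ) * (n' i : ℚ)⁻¹ := by
    rw [← mul_sum, h1, mul_sum, ← sum_filter_add_sum_filter_not univ (fun i => n' i = p),
      add_sub_cancel_right, card_eq_sum_ones, Nat.cast_sum]
    refine sum_congr rfl fun i hi => ?_
    rw [(mem_filter.1 hi).2, mul_inv_cancel₀ hp0, Nat.cast_one]
  have h3 : padicNorm p (∑ i, (p : ℚ) * (n i : ℚ)⁻¹) < 1 :=
    padicNorm.sum_lt' (fun i _ => En_norm (hn i).1 (hn i).2) one_pos
  have h4 : padicNorm p (∑ i ∈ univ.filter (fun i => ¬ n' i = p), (p : ℚ) * (n' i : ℚ)⁻¹) < 1 :=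
    padicNorm.sum_lt' (fun i hi => En_norm (hn' i) (mem_filter.1 hi).2) one_pos
  rw [← padicNorm.nat_lt_one_iff, h2]
  exact lt_of_le_of_lt padicNorm.sub (max_lt h3 h4)

lemma En_mem {K : ℕ} {n n' : Fin K → ℕ} (hn : ∀ i, (n i).Prime)
    (hn' : ∀ i, (n' i).Prime ∧ K < n' i) (h : rs n = rs n') (t : Fin K) :
    n' t ∈ univ.image n := by
  by_contra h0
  have h1 : 0 < (univ.filter fun i => n' i = n' t).card :=
    card_pos.2 ⟨t, mem_filter.2 ⟨mem_univ _, rfl⟩⟩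
  have h4 := Nat.le_of_dvd h1 (En_dvd (hn' t).1
    (fun i => ⟨hn i, fun h4 => h0 (mem_image.2 ⟨i, mem_univ _, h4⟩)⟩) (fun i => (hn' i).1) h)
  exact absurd (h4.trans ((card_le_univ _).trans (Fintype.card_fin K).le)) (not_le.2 (hn' t).2)

lemma En_energy (K : ℕ) (N : Finset ℕ) {N₁ : ℝ}
    (hN : ∀ n ∈ N, n.Prime ∧ K < n ∧ (n : ℝ) ≤ N₁) (hN₁ : 1 ≤ N₁) :
    pairs (tup K N) (fun n n' => rs n = rs n') ≤ N₁ ^ K * (K : ℝ) ^ K := by
  classical
  have h1 : (N.card : ℝ) ≤ N₁ := by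
    have : N ⊆ Icc 1 ⌊N₁⌋₊ := fun n hn => mem_Icc.2 ⟨(hN n hn).1.pos, Nat.le_floor (hN n hn).2.2⟩
    have h2 := card_le_card this
    rw [Nat.card_Icc, Nat.add_sub_cancel] at h2
    exact (Nat.cast_le.2 h2).trans (Nat.floor_le (by linarith))
  rw [pairs_eq_sum]
  refine (sum_le_card_nsmul _ _ ((K : ℝ) ^ K) fun n hn => ?_).trans ?_
  · rw [sum_boole]
    have h2 : ((tup K N).filter fun n' => rs n = rs n') ⊆ tup K (univ.image n) := fun n' hn' =>
      Fintype.mem_piFinset.2 fun t => En_mem (fun i => (hN _ (Fintype.mem_piFinset.1 hn i)).1)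
        (fun i => let h := hN _ (Fintype.mem_piFinset.1 (mem_filter.1 hn').1 i); ⟨h.1, h.2.1⟩)
        (mem_filter.1 hn').2 t
    have h3 := card_le_card h2
    rw [Fintype.card_piFinset, prod_const, card_univ, Fintype.card_fin] at h3
    have h4 : (univ.image n).card ≤ K := card_image_le.trans (by rw [card_univ, Fintype.card_fin])
    exact_mod_cast h3.trans (Nat.pow_le_pow_left h4 K)
  · rw [nsmul_eq_mul, Fintype.card_piFinset, prod_const, card_univ, Fintype.card_fin, Nat.cast_pow]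
    gcongr

theorem pEn : T_En := by
  classical
  intro k hk K N c H N₁ w hH hw hc hN hN₁
  have hk' : (0 : ℝ) < k := by exact_mod_cast hk
  have hN' : ∀ n ∈ N, n ≠ 0 ∧ (n : ℝ) ≤ N₁ ∧ Nat.Coprime n k :=
    fun n hn => ⟨(hN n hn).1.ne_zero, (hN n hn).2.2⟩
  refine (pairs_le_mul _ _ rs (M := 1 + 2 * w * H * N₁ ^ (2 * K) / k)
    (fun i j h => ⟨h.1.symm, by rw [abs_sub_comm]; exact h.2⟩) ?_).trans
    (mul_le_mul_of_nonneg_left (En_energy K N
      (fun n hn => ⟨(hN n hn).1, (hN n hn).2.1, (hN n hn).2.2.1⟩) hN₁) (by positivity))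
  intro i _ J hJ hr
  have := card_spaced (J.image rs) (a := rs i) (w := w) (δ := k / (H * N₁ ^ (2 * K)))
    (by positivity) hw (fun v hv => by
      obtain ⟨j, hj, rfl⟩ := mem_image.1 hv
      exact (hr j hj).2) (fun v hv v' hv' hne => by
      obtain ⟨j, hj, rfl⟩ := mem_image.1 hv
      obtain ⟨j', hj', rfl⟩ := mem_image.1 hv'
      have := spacing hk hH.le hc (n := j) (n' := j')
        (fun t => hN' _ (Fintype.mem_piFinset.1 (hJ hj) t))
        (fun t => hN' _ (Fintype.mem_piFinset.1 (hJ hj') t))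
        ((hr j hj).1.symm.trans (hr j' hj').1) hne
      rw [div_le_iff₀ (by positivity)]
      linarith)
  refine this.trans (le_of_eq ?_)
  field_simp

end Pool.Agent.P.MP_26a8c3_nt.U
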