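import Pool.Agent.P.MP_26a8c3_nt.Hyb8

/-! Statements for the uniform saving `c (log (y / k) / log x) ^ 2`. -/

namespace Pool.Agent.P.MP_26a8c3_nt.U

open Finset Pool.Agent.P.MP_26a8c3_nt.Hyb

/-- Total weight of a set of primes. -/
noncomputable def wt (S : Finset ℕ) : ℝ := gg S * ∑ U ∈ S.powerset, (dd U : ℝ)

/-- Remainder attached to a pair of sets of primes. -/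
noncomputable def rho (R : ℕ → ℝ) (S S' : Finset ℕ) : ℝ :=
  ∑ U ∈ S.powerset, ∑ U' ∈ S'.powerset,
    (-1) ^ U.card * (-1) ^ U'.card * ((dd U : ℝ) * dd U') * R (dd (U ∪ U'))

/-- Remainder attached to a pair of families. -/
noncomputable def RR (R : ℕ → ℝ) (A B : Finset (Finset ℕ)) : ℝ :=
  ∑ S ∈ A, ∑ S' ∈ B, gg S * gg S' * rho R S S'

/-- The sieve weight of a family. -/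
noncomputable def FF (D : Finset (Finset ℕ)) (n : ℤ) : ℝ := ∑ S ∈ D, gg S * psi S n

/-- The extra support: two special primes and a cofactor. -/
noncomputable def EE (k : ℕ) (P₁ P₂ : Finset ℕ) (b : ℕ → ℕ) (z B : ℝ) : Finset (Finset ℕ) :=
  ((P₁ ×ˢ P₂).sigma fun p => LL (k * dd (P₁ ∪ P₂)) (z * B / B ^ (b p.1 + b p.2))).image
    fun a => insert a.1.1 (insert a.1.2 a.2)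

/-- Close congruent pairs of tuples of primes. -/
def T_En : Prop := ∀ (k : ℕ), 0 < k → ∀ (K : ℕ) (N : Finset ℕ) (c : ZMod k) (H N₁ w : ℝ),
  0 < H → 0 ≤ w → (∀ Δ : ℤ, Δ ≠ 0 → c * (Δ : ZMod k) = 0 → (k : ℝ) ≤ H * |(Δ : ℝ)|) →
  (∀ n ∈ N, n.Prime ∧ K < n ∧ (n : ℝ) ≤ N₁ ∧ Nat.Coprime n k) → 1 ≤ N₁ →
  pairs (tup K N) (fun n n' => c * zs k n = c * zs k n' ∧ |rs n - rs n'| ≤ w) ≤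
    (1 + 2 * w * H * N₁ ^ (2 * K) / k) * (N₁ ^ K * (K : ℝ) ^ K)

/-- The bilinear bound over two blocks of primes. -/
def T_Bil : Prop := ∀ (k : ℕ) [NeZero k] (c : ZMod k) (X s t B P M H : ℝ) (K L : ℕ)
  (PP MM : Finset ℕ) (α β : ℕ → ℂ), 1 ≤ K → 1 ≤ L → (∀ m ∈ MM, ‖α m‖ ≤ 1) →
  (∀ p ∈ PP, ‖β p‖ ≤ 1) →
  (∀ p ∈ PP, p.Prime ∧ P ≤ p ∧ (p : ℝ) ≤ P * B ∧ Nat.Coprime p k) →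
  (∀ m ∈ MM, m.Prime ∧ M ≤ m ∧ (m : ℝ) ≤ M * B ∧ Nat.Coprime m k) →
  (∀ Δ : ℤ, Δ ≠ 0 → c * (Δ : ZMod k) = 0 → (k : ℝ) ≤ H * |(Δ : ℝ)|) → 1 ≤ H → H ≤ 2 * B ^ 15 →
  20 * ((K : ℝ) * L) ≤ B → B ≤ P → B ≤ M → B ^ (64 * (K * L)) ≤ t → 0 < s →
  s * t ^ 4 ≤ P ^ K → (P * B) ^ (K - 1) * t ^ 4 ≤ s → M ^ (L - 1) ≤ s → s ≤ M ^ L →
  s ^ 2 ≤ B ^ 5 * (k + k * |X| / (P * M)) → (k : ℝ) ≤ s ^ 2 →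
  k * |X| / (P * M) ≤ 4 * B ^ 26 * s ^ 2 →
  ‖∑ m ∈ MM, ∑ p ∈ PP, α m * β p * ker k c X m p‖ ≤ P * B * (M * B) / B ^ 35

/-- Test functions with a polynomial constant. -/
def T_Good : Prop := ∃ C₀ : ℝ, 1 ≤ C₀ ∧ ∀ J : ℕ, 2 ≤ J → ∃ g : ℝ → ℝ, Good g (C₀ * (J : ℝ) ^ 2) ∧
  (∀ v, 0 ≤ v → v ≤ 1 → g v = 1) ∧ ∫ v, g v ≤ 1 + 2 / (J : ℝ)

/-- Remainders summed over two blocks of primes. -/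
def T_Rem : Prop := ∀ (g : ℝ → ℝ) (C : ℝ), Good g C → ∀ (k : ℕ) [NeZero k] (l : ZMod k),
  IsUnit l → ∀ (x y s t B P M : ℝ) (K L q : ℕ) (PP MM : Finset ℕ) (γ β : ℕ → ℝ),
  0 < y → y ≤ x → s ^ 2 = x / (y / k) → 0 < s → q ≠ 0 → Nat.Coprime q k → 1 ≤ K → 1 ≤ L →
  (∀ m ∈ MM, |γ m| ≤ 2) → (∀ p ∈ PP, |β p| ≤ 2) →
  (∀ p ∈ PP, p.Prime ∧ P ≤ p ∧ (p : ℝ) ≤ P * B ∧ Nat.Coprime p k) →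
  (∀ m ∈ MM, m.Prime ∧ M ≤ m ∧ (m : ℝ) ≤ M * B ∧ Nat.Coprime m k) →
  20 * ((K : ℝ) * L) ≤ B → B ≤ P → B ≤ M → B ^ (64 * (K * L)) ≤ t →
  s * t ^ 4 ≤ P ^ K → (P * B) ^ (K - 1) * t ^ 4 ≤ s → M ^ (L - 1) ≤ s → s ≤ M ^ L →
  q * P * M ≤ y / k * B ^ 4 →
  |∑ m ∈ MM, ∑ p ∈ PP, γ m * β p * rem g k l (x - y) y (q * m * p)| ≤
    (16 * C + 32) / B ^ 7 * (P * M)

/-- The sieve identity, the value at primes, the trivial remainder, the total weight. -/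
def T_Id : Prop :=
  (∀ (g : ℝ → ℝ) (k : ℕ) (l : ZMod k) (x₀ y : ℝ) (D : Finset (Finset ℕ)),
    (∀ S ∈ D, ∀ p ∈ S, p.Prime) →
    ∑ n ∈ win k l x₀ y, g ((n - x₀) / y) * FF D n ^ 2 =
      (∫ v, g v) * (y / k) * ∑ S ∈ D, gg S + RR (rem g k l x₀ y) D D) ∧
  (∀ (W : ℕ) (Z : ℝ) (D : Finset (Finset ℕ)), D ⊆ LL W Z → ∀ p : ℕ, p.Prime → Z < p →
    FF D p = ∑ S ∈ D, gg S) ∧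
  (∀ (W : ℕ) (Y Z : ℝ), 0 ≤ Y → Y ≤ Z → 1 ≤ Z →
    ∑ S ∈ LL W Y, wt S ≤ Y * (2 + 2 * Real.log Z) ^ 2) ∧
  (∀ (R : ℕ → ℝ) (k : ℕ) (c z Λ : ℝ) (D : Finset (Finset ℕ)), 0 ≤ c → 0 ≤ z →
    (∀ d : ℕ, d ≠ 0 → Nat.Coprime d k → |R d| ≤ c * d) → D ⊆ LL k z →
    ∑ S ∈ LL k z, wt S ≤ z * Λ → |RR R D D| ≤ c * z ^ 2 * (z * Λ) ^ 2)

/-- The extra support lies below `z B ^ 3`, and its remainder against any family. -/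
def T_RE : Prop := ∀ (R : ℕ → ℝ) (k N : ℕ) (P₁ P₂ : Finset ℕ) (b : ℕ → ℕ) (c z B P₀ E Λ : ℝ),
  0 ≤ c → 1 ≤ z → 1 ≤ B → 0 < P₀ → 0 ≤ E → 0 ≤ Λ → Disjoint P₁ P₂ →
  (∀ p ∈ P₁ ∪ P₂, p.Prime ∧ Nat.Coprime p k ∧ P₀ ≤ p ∧ (p : ℝ) ≤ B ^ b p * B ∧ b p < N) →
  (∀ d : ℕ, d ≠ 0 → Nat.Coprime d k → |R d| ≤ c * d) →
  (∀ (W : ℕ) (Y : ℝ), 0 ≤ Y → Y ≤ z * B ^ 3 → ∑ S ∈ LL W Y, wt S ≤ Y * Λ) →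
  (∀ (i j q : ℕ) (PP MM : Finset ℕ) (γ β : ℕ → ℝ), q ≠ 0 → Nat.Coprime q k →
    (∀ p ∈ PP, p ∈ P₁ ∧ b p = i) → (∀ m ∈ MM, m ∈ P₂ ∧ b m = j) → (∀ m ∈ MM, |γ m| ≤ 2) →
    (∀ p ∈ PP, |β p| ≤ 2) → q * B ^ i * B ^ j ≤ z ^ 2 * B ^ 4 →
    |∑ m ∈ MM, ∑ p ∈ PP, γ m * β p * R (q * m * p)| ≤ E * (B ^ i * B ^ j)) →
  EE k P₁ P₂ b z B ⊆ LL k (z * B ^ 3) ∧ ∀ D ⊆ LL k (z * B ^ 3),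
    |RR R (EE k P₁ P₂ b z B) D| ≤ c * ((z * B ^ 3) ^ 2 / P₀) * (z * B ^ 3 * Λ) ^ 2 +
      (N : ℝ) ^ 2 * E * (z ^ 2 * B ^ 4) * Λ ^ 2

/-- The normalising sum. -/
def T_G : Prop := ∀ (k : ℕ) (P₁ P₂ : Finset ℕ) (b : ℕ → ℕ) (z B : ℝ), k ≠ 0 → 1 ≤ z → 1 ≤ B →
  Disjoint P₁ P₂ → (∀ p ∈ P₁ ∪ P₂, p.Prime ∧ Nat.Coprime p k ∧ B ^ b p ≤ p) →
  (∀ p ∈ P₁, ∀ m ∈ P₂, B ^ (b p + b m) ≤ z) →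
  (k.totient : ℝ) / k * (Real.log z + (∑ p ∈ P₁, (p : ℝ)⁻¹) * (∑ m ∈ P₂, (m : ℝ)⁻¹) *
    (Real.log B - 1 - (∑ p ∈ P₁, (p : ℝ)⁻¹ + ∑ m ∈ P₂, (m : ℝ)⁻¹) * (Real.log B + 1))) ≤
    ∑ S ∈ LL k z ∪ EE k P₁ P₂ b z B, gg S

/-- The special primes. -/
def T_Pr : Prop := ∀ (n k : ℕ) (B : ℝ), 1 ≤ n → k ≠ 0 → 320000 ≤ B → (n : ℝ) ≤ B →
  (k : ℝ) ≤ B ^ (16384 * n ^ 3) → ∃ (P₁ P₂ : Finset ℕ) (b : ℕ → ℕ), Disjoint P₁ P₂ ∧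
    (∀ p ∈ P₁ ∪ P₂, p.Prime ∧ Nat.Coprime p k ∧ B ^ b p ≤ p ∧ (p : ℝ) ≤ B ^ b p * B ∧
      4096 * n ^ 2 ≤ b p ∧ b p < 16384 * n ^ 2) ∧
    (∀ p ∈ P₁, ∃ K : ℕ, 1 ≤ K ∧ K ≤ 2 * n ∧ 8192 * n ^ 3 + 1024 * n ^ 2 ≤ b p * K ∧
      (b p + 1) * (K - 1) + 1024 * n ^ 2 ≤ 8192 * n ^ 3) ∧
    1 / 400 ≤ ∑ p ∈ P₁, (p : ℝ)⁻¹ ∧ ∑ p ∈ P₁, (p : ℝ)⁻¹ ≤ 1 / 200 ∧
    1 / 100 ≤ ∑ m ∈ P₂, (m : ℝ)⁻¹ ∧ ∑ m ∈ P₂, (m : ℝ)⁻¹ ≤ 1 / 50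

/-- The middle range. -/
def T_Core : Prop := ∃ L₀ : ℝ, ∀ (n k : ℕ) (l : ℤ) (x y u : ℝ), 1 ≤ n → 1 ≤ k → 0 < y → y ≤ x →
  Int.gcd l (k : ℤ) = 1 → L₀ ≤ Real.log (y / k) → Real.log (y / k) ^ 4 ≤ u →
  x / (y / k) = ((u ^ 160000) ^ (8192 * n ^ 3)) ^ 2 → (u ^ 160000) ^ (163840 * n ^ 2) ≤ y / k →
  (({p : ℕ | p.Prime ∧ x - y < (p : ℝ) ∧ (p : ℝ) ≤ x ∧ (p : ℤ) ≡ l [ZMOD (k : ℤ)]}.ncard : ℕ) : ℝ)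
    < (2 - Real.log u / (2 * Real.log (y / k))) * y /
      ((Nat.totient k : ℝ) * Real.log (y / (k : ℝ)))

/-- The theorem. -/
def T_Main : Prop := ∃ c : ℝ, 0 < c ∧ ∀ k : ℕ, ∀ l : ℤ, ∀ x y : ℝ,
  1 ≤ k → (k : ℝ) < y → y ≤ x → Int.gcd l (k : ℤ) = 1 →
    (({p : ℕ | p.Prime ∧ x - y < (p : ℝ) ∧ (p : ℝ) ≤ x ∧
        (p : ℤ) ≡ l [ZMOD (k : ℤ)]}.ncard : ℕ) : ℝ) <
      (2 - c * (Real.log (y / (k : ℝ)) / Real.log x) ^ 2) * y /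
        ((Nat.totient k : ℝ) * Real.log (y / (k : ℝ)))

end Pool.Agent.P.MP_26a8c3_nt.U
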